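import Mathlib
import Pool.Agent.Lib_MP_394d50_gt.Defs

/-!
# MP_394d50_gt, barycentric subdivisions: definitions used in the statement

The flag complex of a graph `G` is the complex of the cliques of `G` (file `Defs` of the library
`Lib_MP_394d50_gt`). The finite simplicial complexes `K` are those of Mathlib
(`PreAbstractSimplicialComplex`: a set `K.faces` of nonempty finite sets, closed under passing to
nonempty subsets).
-/

namespace SingerRA

/-- The 1-skeleton of the barycentric subdivision of `K`: its vertices are the faces of `K`, and two
faces are adjacent when one is strictly contained in the other. The cliques are the chains of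
faces, so that the flag complex of this graph is the barycentric subdivision of `K`. -/
def baryG {V : Type} (K : PreAbstractSimplicialComplex V) : SimpleGraph K.faces where
  Adj F F' := F.1 ⊂ F'.1 ∨ F'.1 ⊂ F.1
  symm := ⟨fun _ _ h => h.symm⟩
  loopless := ⟨fun _ h => h.elim (ssubset_irrefl _) (ssubset_irrefl _)⟩

open scoped Classical in
/-- The geometric realization of a simplicial complex with finite vertex set `V`: the points with
nonnegative barycentric coordinates, of sum one, the support of which is a face. -/
def realiz {V : Type} [Fintype V] (K : PreAbstractSimplicialComplex V) : Set (V → ℝ) :=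
  {y | (∀ v, 0 ≤ y v) ∧ ∑ v, y v = 1 ∧ Finset.univ.filter (fun v => y v ≠ 0) ∈ K.faces}

/-! ## Homology spheres -/

/-- The chains with coefficients in `ZMod 2`, supported on the members of size `j` of the family
`F` (they have degree `j - 1`; for `j = 0` this is the augmentation degree). -/
def chn {V : Type} (F : Set (Finset V)) (j : ℕ) : Submodule (ZMod 2) (Finset V → ZMod 2) where
  carrier := {f | ∀ τ, ¬ (τ ∈ F ∧ τ.card = j) → f τ = 0}
  add_mem' := by
    intro f g hf hg τ h
    rw [Pi.add_apply, hf τ h, hg τ h, add_zero]
  zero_mem' := fun _ _ => rfl
  smul_mem' := by
    intro r f hf τ h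
    rw [Pi.smul_apply, hf τ h, smul_zero]

open scoped Classical in
/-- The boundary: `(∂ f) τ = ∑_{v ∉ τ} f (τ ∪ {v})` for `τ` in the family `F`. -/
noncomputable def bdy {V : Type} [Fintype V] (F : Set (Finset V)) :
    (Finset V → ZMod 2) →ₗ[ZMod 2] (Finset V → ZMod 2) where
  toFun f := fun τ => if τ ∈ F then ∑ v ∈ Finset.univ \ τ, f (insert v τ) else 0
  map_add' f g := by
    funext τ
    simp only [Pi.add_apply]
    split_ifs
    · rw [← Finset.sum_add_distrib]
    · simp
  map_smul' r f := by
    funext τ
    simp only [Pi.smul_apply, RingHom.id_apply]
    split_ifs
    · rw [Finset.smul_sum]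
    · simp

/-- The reduced Betti number, with coefficients in `ZMod 2` and degree `j - 1`, of the simplicial
complex whose simplices are the members of `F` (including the empty one): the dimension of the
chains, minus the rank of the boundary leaving them, minus the rank of the boundary arriving in
them. -/
noncomputable def redBetti {V : Type} [Fintype V] (F : Set (Finset V)) (j : ℕ) : ℤ :=
  Module.finrank (ZMod 2) (chn F j) - Module.finrank (ZMod 2) ((chn F j).map (bdy F)) -
    Module.finrank (ZMod 2) ((chn F (j + 1)).map (bdy F))

open scoped Classical in
/-- The link of the simplex `σ` in the flag complex of `G`. -/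
def slink {V : Type} (G : SimpleGraph V) (σ : Finset V) : Set (Finset V) :=
  {ρ | Disjoint ρ σ ∧ G.IsClique ((ρ ∪ σ : Finset V) : Set V)}

/-- The flag complex of `G` is a homology `(n-1)`-sphere over `ZMod 2` (in the sense of homology
manifolds): the link of every simplex `σ` (including the empty one, whose link is the whole
complex) has the reduced Betti numbers of the sphere of dimension `n - 1 - |σ|`. -/
def F2Sphere {V : Type} [Fintype V] (n : ℕ) (G : SimpleGraph V) : Prop :=
  ∀ σ : Finset V, G.IsClique (σ : Set V) →
    ∀ j, redBetti (slink G σ) j = if σ.card + j = n then 1 else 0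

end SingerRA
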