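import Mathlib
import Pool.Agent.Lib_MP_394d50_gt.Defs2
import Pool.Agent.Lib_MP_394d50_bary.BDefs

/-!
# MP_394d50_gt, barycentric subdivisions: working definitions
-/

namespace SingerRA

/-- The comparability graph of a partially ordered set. Its cliques are the finite chains. -/
def compG (P : Type) [PartialOrder P] : SimpleGraph P where
  Adj x y := x < y ∨ y < x
  symm := ⟨fun _ _ h => h.symm⟩
  loopless := ⟨fun _ h => h.elim (lt_irrefl _) (lt_irrefl _)⟩

theorem baryG_eq {V : Type} (K : PreAbstractSimplicialComplex V) : baryG K = compG K.faces := rfl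

/-- The join of two flag complexes. -/
def joinG {V V' : Type} (G : SimpleGraph V) (H : SimpleGraph V') : SimpleGraph (V ⊕ V') where
  Adj x y := match x, y with
    | .inl u, .inl v => G.Adj u v
    | .inl _, .inr _ => True
    | .inr _, .inl _ => True
    | .inr u, .inr v => H.Adj u v
  symm := ⟨by
    rintro (u | a) (v | b) h
    · exact G.adj_symm h
    · trivial
    · trivial
    · exact H.adj_symm h⟩
  loopless := ⟨by
    rintro (u | a) h
    · exact G.loopless.irrefl u h
    · exact H.loopless.irrefl a h⟩

/-- Let `B` be a poset and `U` an up-closed subset. The graph `interG B U` has the vertices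
`inl (inl b)` (`b ∈ B`), the two poles `x = inl (inr false)`, `t = inl (inr true)`, and
`b⁺ = inr b` (`b ∈ U`). Edges: `b b'` comparable; `t b` always; `x b` when `b ∉ U`; `b c⁺` when
`b ≤ c`; `x c⁺` always; `b⁺ c⁺` when `b`, `c` are comparable. For `U = ∅` it is the suspension of the
order complex of `B`; for `U = B` it is the order complex of the poset of the proper faces of the
pyramid over a polytope whose poset of proper faces is `B`. -/
def interG (B : Type) [PartialOrder B] (U : Set B) : SimpleGraph ((B ⊕ Bool) ⊕ U) where
  Adj x y := match x, y with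
    | .inl (.inl b), .inl (.inl c) => b < c ∨ c < b
    | .inl (.inl b), .inl (.inr e) => e = true ∨ b ∉ U
    | .inl (.inr e), .inl (.inl b) => e = true ∨ b ∉ U
    | .inl (.inr _), .inl (.inr _) => False
    | .inl (.inl b), .inr c => b ≤ c.1
    | .inr c, .inl (.inl b) => b ≤ c.1
    | .inl (.inr e), .inr _ => e = false
    | .inr _, .inl (.inr e) => e = false
    | .inr b, .inr c => b.1 < c.1 ∨ c.1 < b.1
  symm := ⟨by
    rintro ((b | e) | b) ((c | f) | c) h
    · exact Or.symm h
    · exact h
    · exact h
    · exact h
    · exact h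
    · exact h
    · exact h
    · exact h
    · exact Or.symm h⟩
  loopless := ⟨by
    rintro ((b | e) | b) h
    · exact h.elim (lt_irrefl _) (lt_irrefl _)
    · exact h
    · exact h.elim (lt_irrefl _) (lt_irrefl _)⟩

/-- The pole `x`. -/
abbrev px {B : Type} {U : Set B} : (B ⊕ Bool) ⊕ U := Sum.inl (Sum.inr false)

/-- The vertex `b`. -/
abbrev pb {B : Type} {U : Set B} (b : B) : (B ⊕ Bool) ⊕ U := Sum.inl (Sum.inl b)

/-- The poset of the proper nonempty subsets of a finite set. -/
abbrev PF {α : Type} (S : Finset α) : Type := {T : Finset α // T.Nonempty ∧ T ⊂ S}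

/-- The cone over a simplicial complex. -/
def KCone {V : Type} (K : PreAbstractSimplicialComplex V) : Set (V → ℝ) :=
  {y | (∀ v, 0 ≤ y v) ∧ ∀ F : Finset V, F.Nonempty → (∀ v ∈ F, y v ≠ 0) → F ∈ K.faces}

end SingerRA
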