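import Mathlib
import Pool.Agent.Lib_MP_394d50_gt.Defs3
import Pool.Agent.Lib_MP_394d50_gt.AOne
import Pool.Agent.Lib_MP_394d50_bary.BDefs

/-! Piece BSPHERE: `F2Sphere` implies `HomSphere`. -/

namespace SingerRA

namespace Sph

open scoped Classical

variable {V : Type} [Fintype V]

theorem bdy_apply (F : Set (Finset V)) (f : Finset V → ZMod 2) (τ : Finset V) (h : τ ∈ F) :
    bdy F f τ = ∑ v ∈ Finset.univ \ τ, f (insert v τ) := if_pos h

theorem bdy_apply_not (F : Set (Finset V)) (f : Finset V → ZMod 2) (τ : Finset V) (h : τ ∉ F) :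
    bdy F f τ = 0 := if_neg h

theorem bdy_mem (F : Set (Finset V)) (k : ℕ) (f : Finset V → ZMod 2) (hf : f ∈ chn F (k + 1)) :
    bdy F f ∈ chn F k := by
  intro τ hτ
  by_cases hT : τ ∈ F
  · rw [bdy_apply F f τ hT]
    apply Finset.sum_eq_zero
    intro v hv
    apply hf
    rintro ⟨-, h4⟩
    rw [Finset.card_insert_of_notMem (by simpa using hv)] at h4
    exact hτ ⟨hT, by omega⟩
  · exact bdy_apply_not F f τ hT

theorem bdy_zero (F : Set (Finset V)) (f : Finset V → ZMod 2) (hf : f ∈ chn F 0) :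
    bdy F f = 0 := by
  funext τ
  by_cases hT : τ ∈ F
  · rw [bdy_apply F f τ hT]
    apply Finset.sum_eq_zero
    intro v hv
    apply hf
    rintro ⟨-, h4⟩
    rw [Finset.card_insert_of_notMem (by simpa using hv)] at h4
    omega
  · exact bdy_apply_not F f τ hT

theorem bdy_bdy (F : Set (Finset V)) (hF : Conv F) (k : ℕ) (f : Finset V → ZMod 2)
    (hf : f ∈ chn F k) : bdy F (bdy F f) = 0 := by
  funext ρ
  by_cases hρ : ρ ∈ F
  swap
  · exact bdy_apply_not F _ ρ hρ
  rw [bdy_apply F _ ρ hρ]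
  have h1 : ∀ v ∈ Finset.univ \ ρ, bdy F f (insert v ρ) =
      ∑ w ∈ Finset.univ \ (insert v ρ), f (insert w (insert v ρ)) := by
    intro v hv
    by_cases h : insert v ρ ∈ F
    · exact bdy_apply F f _ h
    · rw [bdy_apply_not F f _ h]
      symm
      apply Finset.sum_eq_zero
      intro w hw
      apply hf
      rintro ⟨h3, -⟩
      exact h (hF ρ hρ _ h3 _ (Finset.subset_insert _ _) (Finset.subset_insert _ _))
  rw [Finset.sum_congr rfl h1, Finset.sum_sigma']
  refine Finset.sum_involution (fun p _ => ⟨p.2, p.1⟩) ?_ ?_ ?_ ?_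
  · rintro ⟨v, w⟩ _
    dsimp only
    rw [Finset.insert_comm]
    exact CharTwo.add_self_eq_zero _
  · rintro ⟨v, w⟩ hp _ heq
    simp only [Finset.mem_sigma, Finset.mem_sdiff, Finset.mem_univ, true_and,
      Finset.mem_insert, not_or] at hp
    simp only [Sigma.mk.injEq] at heq
    exact hp.2.1 heq.1
  · rintro ⟨v, w⟩ hp
    simp only [Finset.mem_sigma, Finset.mem_sdiff, Finset.mem_univ, true_and,
      Finset.mem_insert, not_or] at hp ⊢
    exact ⟨hp.2.2, fun h => hp.2.1 h.symm, hp.1⟩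
  · rintro ⟨v, w⟩ _
    rfl

theorem map_le (F : Set (Finset V)) (hF : Conv F) (k : ℕ) :
    (chn F (k + 1)).map (bdy F) ≤ chn F k ⊓ LinearMap.ker (bdy F) := by
  rintro _ ⟨c, hc, rfl⟩
  exact ⟨bdy_mem F k c hc, bdy_bdy F hF (k + 1) c hc⟩

/-- The dimension of the cycles. -/
theorem finrank_cycles (F : Set (Finset V)) (j : ℕ) :
    (Module.finrank (ZMod 2) (chn F j ⊓ LinearMap.ker (bdy F) :
      Submodule (ZMod 2) (Finset V → ZMod 2)) : ℤ) =
    redBetti F j + Module.finrank (ZMod 2) ((chn F (j + 1)).map (bdy F)) := by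
  have := aone_finrank_map_add_inf (bdy F) (chn F j)
  unfold redBetti
  omega

theorem exact_of_zero (F : Set (Finset V)) (hF : Conv F) (j : ℕ) (h : redBetti F j = 0)
    (f : Finset V → ZMod 2) (hf : f ∈ chn F j) (hf2 : bdy F f = 0) :
    ∃ g ∈ chn F (j + 1), bdy F g = f := by
  have h1 := finrank_cycles F j
  rw [h, zero_add] at h1
  have h2 := Submodule.eq_of_le_of_finrank_eq (map_le F hF j) (by exact_mod_cast h1.symm)
  have h3 : f ∈ (chn F (j + 1)).map (bdy F) := by
    rw [h2]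
    exact ⟨hf, hf2⟩
  obtain ⟨g, hg, hg2⟩ := h3
  exact ⟨g, hg, hg2⟩

omit [Fintype V] in
theorem chn_eq_bot (F : Set (Finset V)) (k : ℕ) (h : ∀ σ ∈ F, σ.card ≠ k) : chn F k = ⊥ := by
  rw [eq_bot_iff]
  intro c hc
  rw [Submodule.mem_bot]
  funext σ
  exact hc σ (fun h' => h σ h'.1 h'.2)

/-- The dimension of the chains. -/
theorem finrank_chn (F : Set (Finset V)) (j : ℕ) :
    Module.finrank (ZMod 2) (chn F j) = Fintype.card {τ : Finset V // τ ∈ F ∧ τ.card = j} := by
  let e : chn F j ≃ₗ[ZMod 2] ({τ : Finset V // τ ∈ F ∧ τ.card = j} → ZMod 2) :=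
    { toFun := fun c τ => c.1 τ.1
      invFun := fun c => ⟨fun τ => if h : τ ∈ F ∧ τ.card = j then c ⟨τ, h⟩ else 0, by
        intro τ hτ
        exact dif_neg hτ⟩
      left_inv := by
        rintro ⟨c, hc⟩
        apply Subtype.ext
        funext τ
        dsimp only
        split_ifs with h
        · rfl
        · exact (hc τ h).symm
      right_inv := by
        intro c
        funext τ
        dsimp only
        rw [dif_pos τ.2]
      map_add' := fun _ _ => rfl
      map_smul' := fun _ _ => rfl }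
  rw [e.finrank_eq, Module.finrank_fintype_fun_eq_card]

omit [Fintype V] in
theorem slink_down (G : SimpleGraph V) (σ ρ ρ' : Finset V) (h : ρ ∈ slink G σ) (h' : ρ' ⊆ ρ) :
    ρ' ∈ slink G σ := by
  obtain ⟨h1, h2⟩ := h
  refine ⟨Finset.disjoint_of_subset_left h' h1, h2.subset ?_⟩
  exact_mod_cast Finset.union_subset_union_left h'

omit [Fintype V] in
theorem slink_conv (G : SimpleGraph V) (σ : Finset V) : Conv (slink G σ) :=
  fun _ _ τ hτ _ _ h => slink_down G σ τ _ hτ h

omit [Fintype V] in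
theorem empty_mem_slink (G : SimpleGraph V) (σ : Finset V) (hσ : G.IsClique (σ : Set V)) :
    ∅ ∈ slink G σ := by
  refine ⟨Finset.disjoint_empty_left _, ?_⟩
  rw [Finset.empty_union]
  exact hσ

theorem exists_vertex {n : ℕ} {G : SimpleGraph V} (h : F2Sphere n G) (σ : Finset V)
    (hσ : G.IsClique (σ : Set V)) (hn : σ.card ≠ n) :
    ∃ v, v ∉ σ ∧ G.IsClique ((insert v σ : Finset V) : Set V) := by
  have h1 : redBetti (slink G σ) 0 = 0 := by
    rw [h σ hσ 0, add_zero, if_neg hn]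
  set f : Finset V → ZMod 2 := fun τ => if τ = ∅ then 1 else 0 with hf
  have hf1 : f ∈ chn (slink G σ) 0 := by
    intro τ hτ
    rw [hf]
    dsimp only
    rw [if_neg]
    rintro rfl
    exact hτ ⟨empty_mem_slink G σ hσ, Finset.card_empty⟩
  obtain ⟨g, hg, hg2⟩ := exact_of_zero _ (slink_conv G σ) 0 h1 f hf1 (bdy_zero _ f hf1)
  have h2 := congrFun hg2 ∅
  rw [bdy_apply _ _ _ (empty_mem_slink G σ hσ)] at h2
  have h3 : f ∅ = 1 := if_pos rfl
  rw [h3] at h2
  have h4 : ∃ v ∈ Finset.univ \ (∅ : Finset V), g (insert v ∅) ≠ 0 := by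
    apply Finset.exists_ne_zero_of_sum_ne_zero
    rw [h2]
    exact one_ne_zero
  obtain ⟨v, _, hv⟩ := h4
  have h5 : insert v ∅ ∈ slink G σ := by
    by_contra h6
    exact hv (hg _ (fun h7 => h6 h7.1))
  obtain ⟨h6, h7⟩ := h5
  refine ⟨v, ?_, ?_⟩
  · intro h8
    exact Finset.disjoint_left.mp h6 (Finset.mem_insert_self v ∅) h8
  · have e : insert v ∅ ∪ σ = insert v σ := by
      ext u; simp
    rw [e] at h7
    exact h7

theorem dim_le {n : ℕ} {G : SimpleGraph V} (h : F2Sphere n G) (σ : Finset V)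
    (hσ : G.IsClique (σ : Set V)) : σ.card ≤ n := by
  by_contra hc
  push Not at hc
  have key : ∀ N, ∃ τ : Finset V, G.IsClique (τ : Set V) ∧ N ≤ τ.card ∧ n < τ.card := by
    intro N
    induction N with
    | zero => exact ⟨σ, hσ, Nat.zero_le _, hc⟩
    | succ N ih =>
      obtain ⟨τ, h1, h2, h3⟩ := ih
      obtain ⟨v, hv, h4⟩ := exists_vertex h τ h1 h3.ne'
      refine ⟨insert v τ, h4, ?_, ?_⟩
      · rw [Finset.card_insert_of_notMem hv]; omega
      · rw [Finset.card_insert_of_notMem hv]; omega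
  obtain ⟨τ, _, h2, _⟩ := key (Fintype.card V + 1)
  have := Finset.card_le_univ τ
  omega

/-- The chain of the link defined by a function on the simplices containing `σ`. -/
noncomputable def tr (G : SimpleGraph V) (σ : Finset V) (j : ℕ) (z : Finset V → ZMod 2) :
    Finset V → ZMod 2 :=
  fun ρ => if ρ ∈ slink G σ ∧ ρ.card = j then z (ρ ∪ σ) else 0

omit [Fintype V] in
theorem tr_mem (G : SimpleGraph V) (σ : Finset V) (j : ℕ) (z : Finset V → ZMod 2) :
    tr G σ j z ∈ chn (slink G σ) j := fun _ h => if_neg h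

theorem bdy_tr (G : SimpleGraph V) (σ : Finset V) (j : ℕ) (z : Finset V → ZMod 2)
    (hz : ∀ τ : Finset V, ¬ G.IsClique (τ : Set V) → z τ = 0) (ρ : Finset V)
    (hρ : ρ ∈ slink G σ) (hj : ρ.card + 1 = j) :
    bdy (slink G σ) (tr G σ j z) ρ = bs z (ρ ∪ σ) := by
  rw [bdy_apply _ _ _ hρ]
  unfold bs
  symm
  have hsub : (Finset.univ \ (ρ ∪ σ) : Finset V) ⊆ Finset.univ \ ρ :=
    Finset.sdiff_subset_sdiff (le_refl _) Finset.subset_union_left
  rw [← Finset.sum_subset hsub]
  · apply Finset.sum_congr rfl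
    intro v hv
    have hv' : v ∉ ρ ∧ v ∉ σ := by simpa using hv
    have e : insert v ρ ∪ σ = insert v (ρ ∪ σ) := Finset.insert_union v ρ σ
    unfold tr
    split_ifs with h
    · rw [e]
    · apply hz
      intro h1
      apply h
      refine ⟨⟨?_, ?_⟩, ?_⟩
      · rw [Finset.disjoint_insert_left]
        exact ⟨hv'.2, hρ.1⟩
      · rw [e]; exact h1
      · rw [Finset.card_insert_of_notMem hv'.1, hj]
  · intro v hv hv2
    unfold tr
    apply if_neg
    rintro ⟨⟨h1, _⟩, _⟩
    rw [Finset.disjoint_insert_left] at h1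
    have h2 : v ∉ ρ := by simpa using hv
    apply hv2
    simp only [Finset.mem_sdiff, Finset.mem_univ, true_and, Finset.mem_union, not_or]
    exact ⟨h2, h1.1⟩

omit [Fintype V] in
theorem slink_sdiff (G : SimpleGraph V) (σ τ : Finset V) (hτ : G.IsClique (τ : Set V))
    (h : σ ⊆ τ) : τ \ σ ∈ slink G σ := by
  refine ⟨Finset.sdiff_disjoint, ?_⟩
  rw [Finset.sdiff_union_of_subset h]
  exact hτ

theorem bdy_tr_zero (G : SimpleGraph V) (σ : Finset V) (m j : ℕ)
    (hj : σ.card + j = m) (z : Finset V → ZMod 2)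
    (hz : ∀ τ : Finset V, ¬ G.IsClique (τ : Set V) → z τ = 0)
    (h : ∀ τ : Finset V, G.IsClique (τ : Set V) → σ ⊆ τ → τ.card + 1 = m → bs z τ = 0) :
    bdy (slink G σ) (tr G σ j z) = 0 := by
  funext ρ
  by_cases hρ : ρ ∈ slink G σ
  swap
  · exact bdy_apply_not _ _ _ hρ
  by_cases hc : ρ.card + 1 = j
  · rw [bdy_tr G σ j z hz ρ hρ hc]
    apply h _ hρ.2 Finset.subset_union_right
    rw [Finset.card_union_of_disjoint hρ.1]
    omega
  · rw [bdy_apply _ _ _ hρ]
    apply Finset.sum_eq_zero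
    intro v hv
    unfold tr
    apply if_neg
    rintro ⟨_, h2⟩
    rw [Finset.card_insert_of_notMem (by simpa using hv)] at h2
    exact hc h2

theorem ridge {n : ℕ} {G : SimpleGraph V} (h : F2Sphere n G) (τ : Finset V)
    (hτ : G.IsClique (τ : Set V)) (hn : τ.card + 1 = n) :
    {v | v ∉ τ ∧ G.IsClique ((insert v τ : Finset V) : Set V)}.ncard = 2 := by
  have h1 : redBetti (slink G τ) 1 = 1 := by rw [h τ hτ 1, if_pos hn]
  have h0 : redBetti (slink G τ) 0 = 0 := by rw [h τ hτ 0, if_neg (by omega)]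
  have h2 : chn (slink G τ) 2 = ⊥ := by
    apply chn_eq_bot
    intro ρ hρ hc
    have h3 := dim_le h _ hρ.2
    rw [Finset.card_union_of_disjoint hρ.1] at h3
    omega
  have h4 : (chn (slink G τ) 0).map (bdy (slink G τ)) = ⊥ := by
    rw [eq_bot_iff]
    rintro _ ⟨c, hc, rfl⟩
    rw [bdy_zero _ c hc]
    exact Submodule.zero_mem _
  have h5 : Module.finrank (ZMod 2) (chn (slink G τ) 0) = 1 := by
    rw [finrank_chn, Fintype.card_eq_one_iff]
    refine ⟨⟨∅, empty_mem_slink G τ hτ, Finset.card_empty⟩, ?_⟩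
    rintro ⟨ρ, _, hρ⟩
    apply Subtype.ext
    exact Finset.card_eq_zero.mp hρ
  unfold redBetti at h1 h0
  rw [h4, h5, finrank_bot] at h0
  rw [zero_add] at h0
  rw [show (1 + 1 : ℕ) = 2 from rfl, h2, Submodule.map_bot, finrank_bot] at h1
  have h6 : Module.finrank (ZMod 2) (chn (slink G τ) 1) = 2 := by
    push_cast at h0 h1
    omega
  rw [finrank_chn] at h6
  rw [← h6, ← Nat.card_eq_fintype_card, ← Nat.card_coe_set_eq]
  apply Nat.card_congr
  refine
    { toFun := fun v => ⟨{v.1}, ⟨?_, ?_⟩, Finset.card_singleton _⟩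
      invFun := fun ρ => ⟨(Finset.card_eq_one.mp ρ.2.2).choose, ?_⟩
      left_inv := ?_
      right_inv := ?_ }
  · rw [Finset.disjoint_singleton_left]
    exact v.2.1
  · have e : ({v.1} : Finset V) ∪ τ = insert v.1 τ := rfl
    rw [e]
    exact v.2.2
  · have h7 := (Finset.card_eq_one.mp ρ.2.2).choose_spec
    set v := (Finset.card_eq_one.mp ρ.2.2).choose
    obtain ⟨h8, h9⟩ := ρ.2.1
    rw [h7] at h8 h9
    refine ⟨by rwa [Finset.disjoint_singleton_left] at h8, ?_⟩
    have e : ({v} : Finset V) ∪ τ = insert v τ := rfl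
    rw [e] at h9
    exact h9
  · rintro ⟨v, hv⟩
    apply Subtype.ext
    have h7 := (Finset.card_eq_one.mp (Finset.card_singleton v)).choose_spec
    exact (Finset.singleton_injective h7).symm
  · rintro ⟨ρ, hρ⟩
    apply Subtype.ext
    exact ((Finset.card_eq_one.mp hρ.2).choose_spec).symm

theorem acyclic {n : ℕ} {G : SimpleGraph V} (h : F2Sphere n G) (σ : Finset V)
    (hσ : G.IsClique (σ : Set V)) (m : ℕ) (hm : σ.card ≤ m) (hmn : m < n)
    (z : Finset V → ZMod 2) (hz : ∀ τ : Finset V, ¬ G.IsClique (τ : Set V) → z τ = 0)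
    (hc : ∀ τ : Finset V, G.IsClique (τ : Set V) → σ ⊆ τ → τ.card + 1 = m → bs z τ = 0) :
    ∃ w : Finset V → ZMod 2, (∀ τ : Finset V, ¬ G.IsClique (τ : Set V) → w τ = 0) ∧
      ∀ τ : Finset V, G.IsClique (τ : Set V) → σ ⊆ τ → τ.card = m → z τ = bs w τ := by
  obtain ⟨j, rfl⟩ := Nat.exists_eq_add_of_le hm
  have h1 : redBetti (slink G σ) j = 0 := by rw [h σ hσ j, if_neg (by omega)]
  obtain ⟨g, hg, hg2⟩ := exact_of_zero _ (slink_conv G σ) j h1 (tr G σ j z) (tr_mem G σ j z)
    (bdy_tr_zero G σ (σ.card + j) j rfl z hz hc)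
  refine ⟨fun τ => if G.IsClique (τ : Set V) ∧ σ ⊆ τ then g (τ \ σ) else 0, ?_, ?_⟩
  · intro τ hτ
    exact if_neg (fun h2 => hτ h2.1)
  · intro τ hτ hστ hcard
    have hmem := slink_sdiff G σ τ hτ hστ
    have h2 := congrFun hg2 (τ \ σ)
    rw [bdy_apply _ _ _ hmem] at h2
    have h3 : tr G σ j z (τ \ σ) = z τ := by
      unfold tr
      rw [if_pos, Finset.sdiff_union_of_subset hστ]
      refine ⟨hmem, ?_⟩
      rw [Finset.card_sdiff_of_subset hστ]
      omega
    rw [h3] at h2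
    rw [← h2]
    unfold bs
    symm
    have hsub : (Finset.univ \ τ : Finset V) ⊆ Finset.univ \ (τ \ σ) :=
      Finset.sdiff_subset_sdiff (le_refl _) Finset.sdiff_subset
    rw [← Finset.sum_subset hsub]
    · apply Finset.sum_congr rfl
      intro v hv
      have hv' : v ∉ τ := by simpa using hv
      have hvσ : v ∉ σ := fun h4 => hv' (hστ h4)
      have e : insert v τ \ σ = insert v (τ \ σ) := Finset.insert_sdiff_of_notMem τ hvσ
      dsimp only
      split_ifs with h4
      · rw [e]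
      · symm
        apply hg
        rintro ⟨⟨_, h5⟩, _⟩
        apply h4
        refine ⟨?_, hστ.trans (Finset.subset_insert v τ)⟩
        have e2 : insert v (τ \ σ) ∪ σ = insert v τ := by
          rw [Finset.insert_union, Finset.sdiff_union_of_subset hστ]
        rw [e2] at h5
        exact h5
    · intro v hv hv2
      apply hg
      rintro ⟨⟨h5, _⟩, _⟩
      rw [Finset.disjoint_insert_left] at h5
      have h6 : v ∈ τ := by simpa using hv2
      have h7 : ¬ (v ∈ τ \ σ) := by simpa using hv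
      rw [Finset.mem_sdiff, not_and_not_right] at h7
      exact h5.1 (h7 h6)

theorem top {n : ℕ} {G : SimpleGraph V} (h : F2Sphere n G) (σ : Finset V)
    (hσ : G.IsClique (σ : Set V)) (z : Finset V → ZMod 2)
    (hz : ∀ τ : Finset V, ¬ G.IsClique (τ : Set V) → z τ = 0)
    (hc : ∀ τ : Finset V, G.IsClique (τ : Set V) → σ ⊆ τ → τ.card + 1 = n → bs z τ = 0)
    (τ τ' : Finset V) (hτ : G.IsClique (τ : Set V)) (hτ' : G.IsClique (τ' : Set V))
    (h1 : σ ⊆ τ) (h1' : σ ⊆ τ') (h2 : τ.card = n) (h2' : τ'.card = n) : z τ = z τ' := by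
  obtain ⟨j, rfl⟩ := Nat.exists_eq_add_of_le (dim_le h σ hσ)
  have h3 : redBetti (slink G σ) j = 1 := by rw [h σ hσ j, if_pos rfl]
  have h4 : chn (slink G σ) (j + 1) = ⊥ := by
    apply chn_eq_bot
    intro ρ hρ hc
    have h3 := dim_le h _ hρ.2
    rw [Finset.card_union_of_disjoint hρ.1] at h3
    omega
  have h5 := finrank_cycles (slink G σ) j
  rw [h3, h4, Submodule.map_bot, finrank_bot] at h5
  have h6 : Module.finrank (ZMod 2) (chn (slink G σ) j ⊓ LinearMap.ker (bdy (slink G σ)) :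
      Submodule (ZMod 2) (Finset V → ZMod 2)) = 1 := by
    push_cast at h5
    omega
  set u : Finset V → ZMod 2 := fun τ => if G.IsClique (τ : Set V) then 1 else 0 with hu
  have hu1 : ∀ τ : Finset V, ¬ G.IsClique (τ : Set V) → u τ = 0 := fun τ h => if_neg h
  have hu2 : ∀ τ : Finset V, G.IsClique (τ : Set V) → σ ⊆ τ → τ.card + 1 = σ.card + j →
      bs u τ = 0 := by
    intro τ hτ _ hcard
    have h7 := ridge h τ hτ hcard
    unfold bs
    rw [hu]
    dsimp only
    rw [Finset.sum_ite, Finset.sum_const_zero, add_zero, Finset.sum_const, nsmul_eq_mul, mul_one]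
    have h8 : (Finset.filter (fun v => G.IsClique ((insert v τ : Finset V) : Set V))
        (Finset.univ \ τ)).card = 2 := by
      rw [← h7, Set.ncard_eq_toFinset_card']
      congr 1
      ext v
      simp
    rw [h8]
    rfl
  have hmem : ∀ y : Finset V → ZMod 2, (∀ τ : Finset V, ¬ G.IsClique (τ : Set V) → y τ = 0) →
      (∀ τ : Finset V, G.IsClique (τ : Set V) → σ ⊆ τ → τ.card + 1 = σ.card + j → bs y τ = 0) →
      tr G σ j y ∈ (chn (slink G σ) j ⊓ LinearMap.ker (bdy (slink G σ)) :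
        Submodule (ZMod 2) (Finset V → ZMod 2)) := fun y hy hy2 =>
    ⟨tr_mem G σ j y, bdy_tr_zero G σ (σ.card + j) j rfl y hy hy2⟩
  have hval : ∀ (y : Finset V → ZMod 2) (τ : Finset V), G.IsClique (τ : Set V) → σ ⊆ τ →
      τ.card = σ.card + j → tr G σ j y (τ \ σ) = y τ := by
    intro y τ hτ hs hcard
    unfold tr
    rw [if_pos, Finset.sdiff_union_of_subset hs]
    refine ⟨slink_sdiff G σ τ hτ hs, ?_⟩
    rw [Finset.card_sdiff_of_subset hs]
    omega
  have hun : tr G σ j u ≠ 0 := by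
    intro h7
    have h8 := hval u τ hτ h1 h2
    rw [h7, hu] at h8
    dsimp only at h8
    rw [if_pos hτ] at h8
    exact zero_ne_one h8
  have h9 := (finrank_eq_one_iff_of_nonzero' (⟨tr G σ j u, hmem u hu1 hu2⟩ :
    (chn (slink G σ) j ⊓ LinearMap.ker (bdy (slink G σ)) :
      Submodule (ZMod 2) (Finset V → ZMod 2))) (fun h7 => hun (congrArg Subtype.val h7))).mp h6
    ⟨tr G σ j z, hmem z hz hc⟩
  obtain ⟨c, hcz⟩ := h9
  have h10 : c • tr G σ j u = tr G σ j z := congrArg Subtype.val hcz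
  have h11 : ∀ τ : Finset V, G.IsClique (τ : Set V) → σ ⊆ τ →
      τ.card = σ.card + j → z τ = c := by
    intro τ hτ hs hcard
    rw [← hval z τ hτ hs hcard, ← h10, Pi.smul_apply, hval u τ hτ hs hcard, hu]
    dsimp only
    rw [if_pos hτ, smul_eq_mul, mul_one]
  rw [h11 τ hτ h1 h2, h11 τ' hτ' h1' h2']

end Sph

open scoped Classical in
theorem Sph.homSphere_classical {V : Type} [Fintype V] (n : ℕ) (G : SimpleGraph V)
    (h : F2Sphere n G) :
    @HomSphere V _ (fun a b => Classical.propDecidable (a = b)) n G :=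
  { dim := fun σ hσ => Sph.dim_le h σ hσ
    acyclic := fun σ hσ m hm hmn z hz hc => Sph.acyclic h σ hσ m hm hmn z hz hc
    top := fun σ hσ z hz hc τ τ' hτ hτ' h1 h1' h2 h2' =>
      Sph.top h σ hσ z hz hc τ τ' hτ hτ' h1 h1' h2 h2'
    ridge := fun τ hτ hn => Sph.ridge h τ hτ hn }

theorem homSphere_of_f2 {V : Type} [Fintype V] [iD : DecidableEq V] (n : ℕ) (G : SimpleGraph V)
    (h : F2Sphere n G) : HomSphere n G := by
  obtain rfl : iD = (fun a b => Classical.propDecidable (a = b)) := Subsingleton.elim _ _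
  exact Sph.homSphere_classical n G h

end SingerRA
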