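import Mathlib
import Pool.Agent.Lib_MP_394d50_bary.BDefs2

/-! Piece BTOPB: the cone over a complex homeomorphic to a sphere is a Euclidean space.

Write `s y = ∑ v, y v`. For `y ∈ KCone K`: `y = 0` or `s y > 0` and `y / s y ∈ realiz K` (the support of
`y ≠ 0` is a nonempty finite set on which `y` does not vanish, so it is a face). Let `e` be the
homeomorphism. `Φ : KCone K → EuclideanSpace ℝ (Fin n)`, `Φ 0 = 0`, `Φ y = s y • e (y / s y)`; inverse
`Ψ z = ‖z‖ • e⁻¹ (z / ‖z‖)`, `Ψ 0 = 0` (all points of `realiz K` have coordinates in `[0,1]` and sum `1`; all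
points of the sphere have norm 1, so `‖Φ y‖ = s y`). Continuity outside `0`: composition. Continuity at
`0`: `‖Φ y‖ = s y → 0` and `0 ≤ (Ψ z) v ≤ ‖z‖`. Then `EuclideanSpace ℝ (Fin n) ≃ₜ (Fin n → ℝ)`
(`EuclideanSpace.equiv` or `WithLp` homeomorphism). For `n = 0` the sphere is empty and everything is
consistent (`KCone K = {0}`); no case distinction is needed if the argument is written as above. -/

namespace SingerRA

namespace BTopBAux

variable {V : Type} [Fintype V]

/-- The sum of the coordinates. -/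
def sm (y : V → ℝ) : ℝ := ∑ v, y v

theorem sm_smul (t : ℝ) (y : V → ℝ) : sm (t • y) = t * sm y := by
  simp [sm, Finset.mul_sum]

theorem sm_zero : sm (0 : V → ℝ) = 0 := by simp [sm]

theorem continuous_sm : Continuous (sm : (V → ℝ) → ℝ) :=
  continuous_finsetSum _ fun v _ => continuous_apply v

variable (K : PreAbstractSimplicialComplex V)

theorem zero_mem : (0 : V → ℝ) ∈ KCone K :=
  ⟨fun _ => le_rfl, fun F hF h => by obtain ⟨v, hv⟩ := hF; exact absurd rfl (h v hv)⟩

variable {K}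

theorem sm_nonneg {y : V → ℝ} (hy : y ∈ KCone K) : 0 ≤ sm y :=
  Finset.sum_nonneg fun v _ => hy.1 v

theorem sm_pos {y : V → ℝ} (hy : y ∈ KCone K) (h : y ≠ 0) : 0 < sm y := by
  rcases (sm_nonneg hy).lt_or_eq with h1 | h1
  · exact h1
  · exfalso
    apply h
    funext v
    exact (Finset.sum_eq_zero_iff_of_nonneg (fun v _ => hy.1 v)).mp h1.symm v (Finset.mem_univ v)

theorem realiz_of {y : V → ℝ} (hy : y ∈ KCone K) (h : 0 < sm y) :
    (sm y)⁻¹ • y ∈ realiz K := by
  refine ⟨fun v => mul_nonneg (inv_nonneg.mpr h.le) (hy.1 v), ?_, ?_⟩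
  · have h1 := sm_smul (sm y)⁻¹ y
    rw [inv_mul_cancel₀ h.ne'] at h1
    exact h1
  · apply hy.2
    · by_contra h1
      rw [Finset.not_nonempty_iff_eq_empty, Finset.filter_eq_empty_iff] at h1
      apply h.ne'
      apply Finset.sum_eq_zero
      intro v _
      have h2 := h1 (Finset.mem_univ v)
      rw [not_not] at h2
      have h3 : (sm y)⁻¹ * y v = 0 := h2
      exact (mul_eq_zero.mp h3).resolve_left (inv_ne_zero h.ne')
    · intro v hv h0
      apply (Finset.mem_filter.mp hv).2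
      show (sm y)⁻¹ * y v = 0
      rw [h0, mul_zero]

theorem mem_of {w : V → ℝ} (hw : w ∈ realiz K) {t : ℝ} (ht : 0 ≤ t) : t • w ∈ KCone K := by
  refine ⟨fun v => mul_nonneg ht (hw.1 v), fun F hF h => ?_⟩
  refine (K.isRelLowerSet_faces hw.2.2).2 ?_ hF
  intro v hv
  rw [Finset.mem_filter]
  refine ⟨Finset.mem_univ v, fun h0 => h v hv ?_⟩
  show t * w v = 0
  rw [h0, mul_zero]

theorem norm_realiz {w : V → ℝ} (hw : w ∈ realiz K) : ‖w‖ ≤ 1 := by
  rw [pi_norm_le_iff_of_nonneg zero_le_one]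
  intro v
  rw [Real.norm_of_nonneg (hw.1 v), ← hw.2.1]
  exact Finset.single_le_sum (fun i _ => hw.1 i) (Finset.mem_univ v)

variable {n : ℕ} (e : realiz K ≃ₜ Metric.sphere (0 : EuclideanSpace ℝ (Fin n)) 1)

open scoped Classical in
/-- The homeomorphism, extended by zero. -/
noncomputable def EE (y : V → ℝ) : EuclideanSpace ℝ (Fin n) :=
  if h : y ∈ realiz K then (e ⟨y, h⟩).1 else 0

open scoped Classical in
/-- The inverse homeomorphism, extended by zero. -/
noncomputable def EI (z : EuclideanSpace ℝ (Fin n)) : V → ℝ :=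
  if h : z ∈ Metric.sphere (0 : EuclideanSpace ℝ (Fin n)) 1 then (e.symm ⟨z, h⟩).1 else 0

theorem EE_of_mem {y : V → ℝ} (h : y ∈ realiz K) : EE e y = (e ⟨y, h⟩).1 := dif_pos h

theorem EI_of_mem {z : EuclideanSpace ℝ (Fin n)}
    (h : z ∈ Metric.sphere (0 : EuclideanSpace ℝ (Fin n)) 1) : EI e z = (e.symm ⟨z, h⟩).1 :=
  dif_pos h

theorem norm_EE {y : V → ℝ} (h : y ∈ realiz K) : ‖EE e y‖ = 1 := by
  rw [EE_of_mem e h]
  exact mem_sphere_zero_iff_norm.mp (e ⟨y, h⟩).2

theorem norm_EE_le (y : V → ℝ) : ‖EE e y‖ ≤ 1 := by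
  by_cases h : y ∈ realiz K
  · exact (norm_EE e h).le
  · have h1 : EE e y = 0 := dif_neg h
    rw [h1, norm_zero]
    exact zero_le_one

theorem norm_EI_le (z : EuclideanSpace ℝ (Fin n)) : ‖EI e z‖ ≤ 1 := by
  by_cases h : z ∈ Metric.sphere (0 : EuclideanSpace ℝ (Fin n)) 1
  · rw [EI_of_mem e h]
    exact norm_realiz (e.symm ⟨z, h⟩).2
  · have h1 : EI e z = 0 := dif_neg h
    rw [h1, norm_zero]
    exact zero_le_one

theorem EI_mem {z : EuclideanSpace ℝ (Fin n)}
    (h : z ∈ Metric.sphere (0 : EuclideanSpace ℝ (Fin n)) 1) : EI e z ∈ realiz K := by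
  rw [EI_of_mem e h]
  exact (e.symm ⟨z, h⟩).2

theorem EE_EI {z : EuclideanSpace ℝ (Fin n)}
    (h : z ∈ Metric.sphere (0 : EuclideanSpace ℝ (Fin n)) 1) : EE e (EI e z) = z := by
  rw [EE_of_mem e (EI_mem e h)]
  have h1 : (⟨EI e z, EI_mem e h⟩ : realiz K) = e.symm ⟨z, h⟩ := Subtype.ext (EI_of_mem e h)
  rw [h1, e.apply_symm_apply]

theorem EE_sphere {y : V → ℝ} (h : y ∈ realiz K) :
    EE e y ∈ Metric.sphere (0 : EuclideanSpace ℝ (Fin n)) 1 :=
  mem_sphere_zero_iff_norm.mpr (norm_EE e h)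

theorem EI_EE {y : V → ℝ} (h : y ∈ realiz K) : EI e (EE e y) = y := by
  rw [EI_of_mem e (EE_sphere e h)]
  have h1 : (⟨EE e y, EE_sphere e h⟩ : Metric.sphere (0 : EuclideanSpace ℝ (Fin n)) 1) =
      e ⟨y, h⟩ := Subtype.ext (EE_of_mem e h)
  rw [h1, e.symm_apply_apply]

theorem EE_contOn : ContinuousOn (EE e) (realiz K) := by
  rw [continuousOn_iff_continuous_domRestrict]
  have h1 : (realiz K).domRestrict (EE e) = fun y => (e y).1 := by
    funext y
    exact EE_of_mem e y.2
  rw [h1]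
  exact continuous_subtype_val.comp e.continuous

theorem EI_contOn : ContinuousOn (EI e) (Metric.sphere (0 : EuclideanSpace ℝ (Fin n)) 1) := by
  rw [continuousOn_iff_continuous_domRestrict]
  have h1 : (Metric.sphere (0 : EuclideanSpace ℝ (Fin n)) 1).domRestrict (EI e) =
      fun y => (e.symm y).1 := by
    funext y
    exact EI_of_mem e y.2
  rw [h1]
  exact continuous_subtype_val.comp e.symm.continuous

/-- The map to the Euclidean space. -/
noncomputable def Phi (y : V → ℝ) : EuclideanSpace ℝ (Fin n) := sm y • EE e ((sm y)⁻¹ • y)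

/-- The inverse map. -/
noncomputable def Psi (z : EuclideanSpace ℝ (Fin n)) : V → ℝ := ‖z‖ • EI e (‖z‖⁻¹ • z)

theorem Phi_zero : Phi e 0 = 0 := by
  rw [Phi, sm_zero, zero_smul]

theorem Psi_zero : Psi e 0 = 0 := by
  rw [Psi, norm_zero, zero_smul]

theorem unit_mem {z : EuclideanSpace ℝ (Fin n)} (hz : z ≠ 0) :
    ‖z‖⁻¹ • z ∈ Metric.sphere (0 : EuclideanSpace ℝ (Fin n)) 1 := by
  rw [mem_sphere_zero_iff_norm, norm_smul, norm_inv, norm_norm, inv_mul_cancel₀]
  exact norm_ne_zero_iff.mpr hz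

theorem Psi_mem (z : EuclideanSpace ℝ (Fin n)) : Psi e z ∈ KCone K := by
  by_cases hz : z = 0
  · rw [hz, Psi_zero]
    exact zero_mem K
  · exact mem_of (EI_mem e (unit_mem hz)) (norm_nonneg z)

theorem Phi_Psi (z : EuclideanSpace ℝ (Fin n)) : Phi e (Psi e z) = z := by
  by_cases hz : z = 0
  · rw [hz, Psi_zero, Phi_zero]
  · have h1 := EI_mem e (unit_mem hz)
    have hn : ‖z‖ ≠ 0 := norm_ne_zero_iff.mpr hz
    have h2 : sm (Psi e z) = ‖z‖ := by
      rw [Psi, sm_smul]
      have h3 : sm (EI e (‖z‖⁻¹ • z)) = 1 := h1.2.1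
      rw [h3, mul_one]
    rw [Phi, h2, Psi, smul_smul, inv_mul_cancel₀ hn, one_smul, EE_EI e (unit_mem hz), smul_smul,
      mul_inv_cancel₀ hn, one_smul]

theorem Psi_Phi {y : V → ℝ} (hy : y ∈ KCone K) : Psi e (Phi e y) = y := by
  by_cases h : y = 0
  · rw [h, Phi_zero, Psi_zero]
  · have hs := sm_pos hy h
    have h1 := realiz_of hy hs
    have h2 : ‖Phi e y‖ = sm y := by
      rw [Phi, norm_smul, norm_EE e h1, mul_one, Real.norm_of_nonneg hs.le]
    rw [Psi, h2, Phi, smul_smul, inv_mul_cancel₀ hs.ne', one_smul, EI_EE e h1, smul_smul,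
      mul_inv_cancel₀ hs.ne', one_smul]

theorem Phi_contOn : ContinuousOn (Phi e) (KCone K) := by
  intro y hy
  by_cases h : y = 0
  · rw [h, ContinuousWithinAt, Phi_zero]
    refine squeeze_zero_norm' (a := sm) ?_ ?_
    · filter_upwards [self_mem_nhdsWithin] with w hw
      rw [Phi, norm_smul, Real.norm_of_nonneg (sm_nonneg hw)]
      exact mul_le_of_le_one_right (sm_nonneg hw) (norm_EE_le e _)
    · have h1 : Filter.Tendsto (sm : (V → ℝ) → ℝ) (nhds 0) (nhds 0) := by
        have h2 := (continuous_sm (V := V)).tendsto 0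
        rwa [sm_zero] at h2
      exact h1.mono_left nhdsWithin_le_nhds
  · have hs := sm_pos hy h
    have hopen : {w : V → ℝ | 0 < sm w} ∈ nhds y :=
      (isOpen_lt continuous_const continuous_sm).mem_nhds hs
    rw [← continuousWithinAt_inter hopen]
    refine ContinuousWithinAt.smul continuous_sm.continuousWithinAt ?_
    refine ContinuousWithinAt.comp (g := EE e) (f := fun w : V → ℝ => (sm w)⁻¹ • w)
      (t := realiz K) (EE_contOn e _ (realiz_of hy hs)) ?_ ?_
    · refine ContinuousWithinAt.smul (g := fun w : V → ℝ => w)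
        ((continuous_sm.continuousWithinAt).inv₀ hs.ne') continuousWithinAt_id
    · intro w hw
      exact realiz_of hw.1 hw.2

theorem Psi_cont : Continuous (Psi e) := by
  rw [continuous_iff_continuousAt]
  intro z
  by_cases h : z = 0
  · rw [h, ContinuousAt, Psi_zero]
    refine squeeze_zero_norm (a := fun w => ‖w‖) ?_ ?_
    · intro w
      rw [Psi, norm_smul, norm_norm]
      exact mul_le_of_le_one_right (norm_nonneg w) (norm_EI_le e _)
    · have h2 := (continuous_norm (E := EuclideanSpace ℝ (Fin n))).tendsto 0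
      rwa [norm_zero] at h2
  · have hopen : {w : EuclideanSpace ℝ (Fin n) | w ≠ 0} ∈ nhds z :=
      isOpen_ne.mem_nhds h
    refine ContinuousWithinAt.continuousAt (s := {w | w ≠ 0}) ?_ hopen
    refine ContinuousWithinAt.smul continuous_norm.continuousWithinAt ?_
    refine ContinuousWithinAt.comp (g := EI e)
      (f := fun w : EuclideanSpace ℝ (Fin n) => ‖w‖⁻¹ • w)
      (t := Metric.sphere (0 : EuclideanSpace ℝ (Fin n)) 1) (EI_contOn e _ (unit_mem h)) ?_ ?_
    · refine ContinuousWithinAt.smul (g := fun w : EuclideanSpace ℝ (Fin n) => w)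
        ((continuous_norm.continuousWithinAt).inv₀ (norm_ne_zero_iff.mpr h)) continuousWithinAt_id
    · intro w hw
      exact unit_mem hw

end BTopBAux

open BTopBAux

theorem kcone_sphere {V : Type} [Fintype V] (K : PreAbstractSimplicialComplex V) (n : ℕ)
    (e : realiz K ≃ₜ Metric.sphere (0 : EuclideanSpace ℝ (Fin n)) 1) :
    Nonempty (KCone K ≃ₜ (Fin n → ℝ)) := by
  let f : KCone K ≃ₜ EuclideanSpace ℝ (Fin n) :=
    { toFun := fun y => Phi e y.1
      invFun := fun z => ⟨Psi e z, Psi_mem e z⟩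
      left_inv := fun y => Subtype.ext (Psi_Phi e y.2)
      right_inv := fun z => Phi_Psi e z
      continuous_toFun := continuousOn_iff_continuous_domRestrict.mp (Phi_contOn e)
      continuous_invFun := (Psi_cont e).subtype_mk _ }
  exact ⟨f.trans (EuclideanSpace.equiv (Fin n) ℝ).toHomeomorph⟩

end SingerRA
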