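import Mathlib
import Pool.Agent.Lib_MP_394d50_bary.BDefs2

/-! Piece BTOPA: the cone over the barycentric subdivision is homeomorphic to the cone over `K`.

The map is `f c v = ∑_{F ∋ v} c F`. It lands in `KCone K`: the support of `c` is a chain of faces. It is
injective (induction on the size of the support of `c`: the largest face `M` of the support of `c` is the
support of `f c`, and `c M = min_M (f c)`), surjective onto `KCone K` (induction on the size of the support
`S` of `y`: subtract `min_S y` times the indicator function of `S`) and proper (`c F ≤ f c v` for `v ∈ F`),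
hence closed. -/

namespace SingerRA

namespace BTopA

open Finset

variable {V : Type} [Fintype V] [DecidableEq V] (K : PreAbstractSimplicialComplex V)
  [Fintype K.faces]

/-- The sum of the coefficients of the faces containing `v`. -/
def fs (c : K.faces → ℝ) (v : V) : ℝ := ∑ F : K.faces, if v ∈ F.1 then c F else 0

variable {K}

theorem le_fs {c : K.faces → ℝ} (hc : ∀ F, 0 ≤ c F) {F : K.faces} {v : V} (hv : v ∈ F.1) :
    c F ≤ fs K c v := by
  have h := Finset.single_le_sum (f := fun F : K.faces => if v ∈ F.1 then c F else 0) (s := univ)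
    (fun F _ => by
      change (0 : ℝ) ≤ if v ∈ F.1 then c F else 0
      split_ifs
      · exact hc F
      · exact le_rfl) (mem_univ F)
  change (if v ∈ F.1 then c F else 0) ≤ _ at h
  rw [if_pos hv] at h
  exact h

theorem fs_nonneg {c : K.faces → ℝ} (hc : ∀ F, 0 ≤ c F) (v : V) : 0 ≤ fs K c v := by
  refine Finset.sum_nonneg (fun F _ => ?_)
  split_ifs
  · exact hc F
  · exact le_rfl

theorem fs_ne {c : K.faces → ℝ} {v : V} (h : fs K c v ≠ 0) : ∃ F : K.faces, v ∈ F.1 ∧ c F ≠ 0 := by
  by_contra hn
  push Not at hn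
  apply h
  refine Finset.sum_eq_zero (fun F _ => ?_)
  split_ifs with h1
  · exact hn F h1
  · rfl

theorem fs_update (c : K.faces → ℝ) (M : K.faces) (a : ℝ) (v : V) :
    fs K (Function.update c M a) v = fs K c v + if v ∈ M.1 then a - c M else 0 := by
  unfold fs
  rw [← sub_eq_iff_eq_add', ← Finset.sum_sub_distrib, Finset.sum_eq_single M]
  · rw [Function.update_self]
    split_ifs
    · rfl
    · ring
  · intro F _ hF
    rw [Function.update_of_ne hF]
    ring
  · intro h
    exact absurd (mem_univ M) h

/-- The elements of the support are comparable. -/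
theorem comp {c : K.faces → ℝ} (hc : c ∈ Cone (baryG K)) {F F' : K.faces} (h : c F ≠ 0)
    (h' : c F' ≠ 0) : F.1 ⊆ F'.1 ∨ F'.1 ⊂ F.1 := by
  by_cases he : F = F'
  · exact Or.inl (he ▸ subset_rfl)
  · rcases hc.2 h h' he with h1 | h1
    · exact Or.inl h1.1
    · exact Or.inr h1

/-- The greatest element of a nonempty set of elements of the support. -/
theorem greatest {c : K.faces → ℝ} (hc : c ∈ Cone (baryG K)) (s : Finset K.faces)
    (hs : s.Nonempty) (h0 : ∀ F ∈ s, c F ≠ 0) : ∃ M ∈ s, ∀ F ∈ s, F.1 ⊆ M.1 := by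
  obtain ⟨M, hM, h1⟩ := s.exists_max_image (fun F => F.1.card) hs
  refine ⟨M, hM, fun F hF => ?_⟩
  rcases comp hc (h0 F hF) (h0 M hM) with h | h
  · exact h
  · exact absurd (card_lt_card h) (not_lt.2 (h1 F hF))

theorem fs_mem {c : K.faces → ℝ} (hc : c ∈ Cone (baryG K)) : fs K c ∈ KCone K := by
  refine ⟨fs_nonneg hc.1, fun A hA h => ?_⟩
  obtain ⟨a, ha⟩ := hA
  obtain ⟨F0, _, hF0⟩ := fs_ne (h a ha)
  obtain ⟨M, hM, hmax⟩ := greatest hc (univ.filter (fun F => c F ≠ 0)) ⟨F0, by simpa using hF0⟩
    (fun F hF => (mem_filter.1 hF).2)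
  refine (K.isRelLowerSet_faces M.2).2 ?_ ⟨a, ha⟩
  intro v hv
  obtain ⟨F, hvF, hF⟩ := fs_ne (h v hv)
  exact hmax F (mem_filter.2 ⟨mem_univ _, hF⟩) hvF

/-- The largest face of the support: its coefficient is the minimum of `fs K c` over it. -/
theorem top_face {c : K.faces → ℝ} (hc : c ∈ Cone (baryG K)) (h0 : ∃ F, c F ≠ 0) :
    ∃ M : K.faces, c M ≠ 0 ∧ (∀ v, fs K c v ≠ 0 ↔ v ∈ M.1) ∧ ∃ v ∈ M.1, fs K c v = c M := by
  obtain ⟨F0, hF0⟩ := h0
  obtain ⟨M, hM, hmax⟩ := greatest hc (univ.filter (fun F => c F ≠ 0)) ⟨F0, by simpa using hF0⟩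
    (fun F hF => (mem_filter.1 hF).2)
  have hM0 : c M ≠ 0 := (mem_filter.1 hM).2
  have hmax' : ∀ F, c F ≠ 0 → F.1 ⊆ M.1 := fun F hF => hmax F (mem_filter.2 ⟨mem_univ _, hF⟩)
  refine ⟨M, hM0, fun v => ⟨fun h => ?_, fun h => ?_⟩, ?_⟩
  · obtain ⟨F, hvF, hF⟩ := fs_ne h
    exact hmax' F hF hvF
  · have h1 := le_fs hc.1 h
    exact ((lt_of_le_of_ne (hc.1 M) (Ne.symm hM0)).trans_le h1).ne'
  · obtain ⟨v, hvM, hv⟩ : ∃ v ∈ M.1, ∀ F, c F ≠ 0 → F ≠ M → v ∉ F.1 := by
      by_cases he : ∃ F, c F ≠ 0 ∧ F ≠ M
      · obtain ⟨F1, hF1⟩ := he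
        obtain ⟨M', hM', hmax2⟩ := greatest hc (univ.filter (fun F => c F ≠ 0 ∧ F ≠ M))
          ⟨F1, by simpa using hF1⟩ (fun F hF => (mem_filter.1 hF).2.1)
        have h2 : M'.1 ⊂ M.1 := by
          have h3 := (mem_filter.1 hM').2
          refine (hmax' M' h3.1).ssubset_of_ne ?_
          intro h4
          exact h3.2 (Subtype.ext h4)
        obtain ⟨v, hv1, hv2⟩ := exists_of_ssubset h2
        refine ⟨v, hv1, fun F hF hFM hvF => hv2 ?_⟩
        exact hmax2 F (mem_filter.2 ⟨mem_univ _, hF, hFM⟩) hvF
      · push Not at he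
        obtain ⟨v, hv⟩ := (K.isRelLowerSet_faces M.2).1
        exact ⟨v, hv, fun F hF hFM => absurd (he F hF) hFM⟩
    refine ⟨v, hvM, ?_⟩
    unfold fs
    rw [Finset.sum_eq_single M]
    · rw [if_pos hvM]
    · intro F _ hF
      split_ifs with h1
      · by_contra h2
        exact hv F h2 hF h1
      · rfl
    · intro h
      exact absurd (mem_univ M) h

theorem update_mem {c : K.faces → ℝ} (hc : c ∈ Cone (baryG K)) (M : K.faces) :
    Function.update c M 0 ∈ Cone (baryG K) := by
  have h1 : ∀ F, Function.update c M 0 F ≠ 0 → F ≠ M ∧ c F ≠ 0 := by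
    intro F hF
    have h2 : F ≠ M := by
      rintro rfl
      rw [Function.update_self] at hF
      exact hF rfl
    rw [Function.update_of_ne h2] at hF
    exact ⟨h2, hF⟩
  refine ⟨fun F => ?_, fun F hF F' hF' hne => ?_⟩
  · by_cases h : F = M
    · rw [h, Function.update_self]
    · rw [Function.update_of_ne h]
      exact hc.1 F
  · exact hc.2 (h1 F hF).2 (h1 F' hF').2 hne

theorem fs_inj (n : ℕ) : ∀ c c' : K.faces → ℝ, c ∈ Cone (baryG K) → c' ∈ Cone (baryG K) →
    (univ.filter (fun F => c F ≠ 0)).card = n → fs K c = fs K c' → c = c' := by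
  induction n using Nat.strong_induction_on with
  | _ n ih =>
    intro c c' hc hc' hn hf
    by_cases h0 : ∃ F, c F ≠ 0
    · obtain ⟨M, hM, hs, v, hv, hv'⟩ := top_face hc h0
      have h0' : ∃ F, c' F ≠ 0 := by
        have h1 : fs K c v ≠ 0 := (hs v).2 hv
        rw [hf] at h1
        obtain ⟨F, _, hF⟩ := fs_ne h1
        exact ⟨F, hF⟩
      obtain ⟨M', hM', hs', v', hw, hw'⟩ := top_face hc' h0'
      obtain rfl : M = M' := by
        apply Subtype.ext
        ext u
        rw [← hs u, ← hs' u, hf]
      have h2 : c M = c' M := by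
        apply le_antisymm
        · rw [← hw', ← hf]
          exact le_fs hc.1 hw
        · rw [← hv', hf]
          exact le_fs hc'.1 hv
      have h3 : Function.update c M 0 = Function.update c' M 0 := by
        refine ih (univ.filter (fun F => Function.update c M 0 F ≠ 0)).card ?_ _ _
          (update_mem hc M) (update_mem hc' M) rfl ?_
        · rw [← hn]
          apply card_lt_card
          refine ⟨fun F hF => ?_, fun h => ?_⟩
          · rw [mem_filter] at hF ⊢
            refine ⟨hF.1, ?_⟩
            by_cases h : F = M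
            · rw [h]
              exact hM
            · have h5 := hF.2
              rw [Function.update_of_ne h] at h5
              exact h5
          · have h5 := h (mem_filter.2 ⟨mem_univ M, hM⟩)
            rw [mem_filter, Function.update_self] at h5
            exact h5.2 rfl
        · funext u
          rw [fs_update, fs_update, hf, h2]
      funext F
      by_cases h : F = M
      · rw [h, h2]
      · have h5 := congrFun h3 F
        rw [Function.update_of_ne h, Function.update_of_ne h] at h5
        exact h5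
    · push Not at h0
      by_contra hne
      have h0' : ∃ F, c' F ≠ 0 := by
        by_contra h1
        push Not at h1
        apply hne
        funext F
        rw [h0, h1]
      obtain ⟨M, hM, hs, v, hv, hv'⟩ := top_face hc' h0'
      have h1 : fs K c' v ≠ 0 := (hs v).2 hv
      rw [← hf] at h1
      obtain ⟨F, _, hF⟩ := fs_ne h1
      exact hF (h0 F)

theorem fs_surj (n : ℕ) : ∀ y ∈ KCone K, (univ.filter (fun v => y v ≠ 0)).card = n →
    ∃ c ∈ Cone (baryG K), fs K c = y ∧ ∀ F, c F ≠ 0 → ∀ v ∈ F.1, y v ≠ 0 := by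
  induction n using Nat.strong_induction_on with
  | _ n ih =>
    intro y hy hn
    by_cases h0 : (univ.filter (fun v => y v ≠ 0)).Nonempty
    · obtain ⟨v0, hv0, hmin⟩ := exists_min_image _ y h0
      set S : K.faces := ⟨univ.filter (fun v => y v ≠ 0), hy.2 _ h0 (fun v hv => (mem_filter.1 hv).2)⟩
        with hS
      have hmS : ∀ v, v ∈ S.1 ↔ y v ≠ 0 := fun v => by
        rw [hS, mem_filter]
        exact ⟨fun h => h.2, fun h => ⟨mem_univ _, h⟩⟩
      set y' : V → ℝ := fun v => if v ∈ S.1 then y v - y v0 else 0 with hy'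
      have h1 : ∀ v, y' v ≠ 0 → v ∈ S.1 := by
        intro v hv
        by_contra h
        apply hv
        rw [hy']
        exact if_neg h
      have hv0' : y' v0 = 0 := by
        have : y' v0 = if v0 ∈ S.1 then y v0 - y v0 else 0 := rfl
        rw [this, if_pos hv0, sub_self]
      have hmem : y' ∈ KCone K := by
        refine ⟨fun v => ?_, fun A hA h => hy.2 A hA (fun v hv => (hmS v).1 (h1 v (h v hv)))⟩
        change 0 ≤ if v ∈ S.1 then y v - y v0 else 0
        split_ifs with h
        · exact sub_nonneg.2 (hmin v h)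
        · exact le_rfl
      obtain ⟨c, hc, hfc, hsupp⟩ := ih (univ.filter (fun v => y' v ≠ 0)).card (by
        rw [← hn]
        apply card_lt_card
        refine ⟨fun v hv => ?_, fun h => ?_⟩
        · exact h1 v (mem_filter.1 hv).2
        · exact (mem_filter.1 (h hv0)).2 hv0') y' hmem rfl
      have hcS : c S = 0 := by
        by_contra h
        exact hsupp S h v0 hv0 hv0'
      have hle : ∀ F, c F ≠ 0 → F.1 ⊂ S.1 := by
        intro F hF
        refine ⟨fun v hv => h1 v (hsupp F hF v hv), fun h => ?_⟩
        exact hsupp F hF v0 (h hv0) hv0'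
      refine ⟨Function.update c S (y v0), ⟨fun F => ?_, fun F hF F' hF' hne => ?_⟩, ?_, ?_⟩
      · by_cases h : F = S
        · rw [h, Function.update_self]
          exact hy.1 v0
        · rw [Function.update_of_ne h]
          exact hc.1 F
      · have hF1 : Function.update c S (y v0) F ≠ 0 := hF
        have hF1' : Function.update c S (y v0) F' ≠ 0 := hF'
        by_cases h : F = S
        · subst h
          have h' : F' ≠ S := Ne.symm hne
          rw [Function.update_of_ne h'] at hF1'
          exact Or.inr (hle F' hF1')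
        · rw [Function.update_of_ne h] at hF1
          by_cases h' : F' = S
          · subst h'
            exact Or.inl (hle F hF1)
          · rw [Function.update_of_ne h'] at hF1'
            exact hc.2 hF1 hF1' hne
      · funext v
        rw [fs_update, hfc, hcS]
        change (if v ∈ S.1 then y v - y v0 else 0) + _ = _
        split_ifs with h
        · ring
        · by_contra h5
          exact h ((hmS v).2 (fun h6 => h5 (by rw [h6, add_zero])))
      · intro F hF v hv
        by_cases h : F = S
        · rw [h] at hv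
          exact (hmS v).1 hv
        · rw [Function.update_of_ne h] at hF
          exact (hmS v).1 ((hle F hF).1 hv)
    · rw [not_nonempty_iff_eq_empty] at h0
      have h1 : ∀ v, y v = 0 := by
        intro v
        by_contra h
        have h2 : v ∈ univ.filter (fun v => y v ≠ 0) := mem_filter.2 ⟨mem_univ _, h⟩
        rw [h0] at h2
        exact absurd h2 (notMem_empty v)
      refine ⟨0, ⟨fun _ => le_rfl, fun F hF => absurd rfl hF⟩, ?_, fun F hF => absurd rfl hF⟩
      funext v
      rw [h1 v]
      refine Finset.sum_eq_zero (fun F _ => ?_)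
      split_ifs <;> rfl

theorem cone_closed {W : Type} (G : SimpleGraph W) : IsClosed (Cone G) := by
  have h : Cone G = {y : W → ℝ | ∀ v, 0 ≤ y v} ∩ ⋂ u, ⋂ v, {y : W → ℝ | (u ≠ v ∧ ¬ G.Adj u v) → y u * y v = 0} := by
    ext y
    rw [Set.mem_inter_iff, Set.mem_iInter]
    constructor
    · rintro ⟨h1, h2⟩
      refine ⟨h1, fun u => ?_⟩
      rw [Set.mem_iInter]
      rintro v ⟨huv, hn⟩
      by_contra h3
      exact hn (h2 (left_ne_zero_of_mul h3) (right_ne_zero_of_mul h3) huv)
    · rintro ⟨h1, h2⟩
      refine ⟨h1, fun u hu v hv huv => ?_⟩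
      by_contra h3
      have h4 := Set.mem_iInter.1 (h2 u) v ⟨huv, h3⟩
      exact mul_ne_zero hu hv h4
  rw [h]
  apply IsClosed.inter
  · rw [Set.setOf_forall]
    exact isClosed_iInter (fun v => isClosed_le continuous_const (continuous_apply v))
  · refine isClosed_iInter (fun u => isClosed_iInter (fun v => ?_))
    by_cases h1 : u ≠ v ∧ ¬ G.Adj u v
    · have h2 : {y : W → ℝ | (u ≠ v ∧ ¬ G.Adj u v) → y u * y v = 0} = {y : W → ℝ | y u * y v = 0} := by
        ext y
        exact ⟨fun h => h h1, fun h _ => h⟩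
      rw [h2]
      exact isClosed_eq ((continuous_apply u).mul (continuous_apply v)) continuous_const
    · have h2 : {y : W → ℝ | (u ≠ v ∧ ¬ G.Adj u v) → y u * y v = 0} = Set.univ := by
        ext y
        exact ⟨fun _ => trivial, fun _ h => absurd h h1⟩
      rw [h2]
      exact isClosed_univ

theorem fs_cont : Continuous (fs K) := by
  refine continuous_pi (fun v => ?_)
  unfold fs
  refine continuous_finset_sum _ (fun F _ => ?_)
  split_ifs
  · exact continuous_apply F
  · exact continuous_const

/-- The map on the cone. -/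
def fm (K : PreAbstractSimplicialComplex V) [Fintype K.faces] (c : Cone (baryG K)) : V → ℝ := fs K c.1

theorem fm_proper : IsProperMap (fm K) := by
  rw [isProperMap_iff_isCompact_preimage]
  refine ⟨fs_cont.comp continuous_subtype_val, fun A hA => ?_⟩
  rw [Subtype.isCompact_iff]
  have h1 : Subtype.val '' (fm K ⁻¹' A) = Cone (baryG K) ∩ fs K ⁻¹' A := by
    ext c
    constructor
    · rintro ⟨⟨c', hc'⟩, h, rfl⟩
      exact ⟨hc', h⟩
    · rintro ⟨h, h'⟩
      exact ⟨⟨c, h⟩, h', rfl⟩
  rw [h1]
  apply Metric.isCompact_of_isClosed_isBounded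
  · exact (cone_closed _).inter (hA.isClosed.preimage fs_cont)
  · obtain ⟨R, hR⟩ := hA.isBounded.subset_closedBall 0
    refine (Metric.isBounded_closedBall (x := (0 : K.faces → ℝ)) (r := max R 0)).subset ?_
    rintro c ⟨hc, hcA⟩
    rw [mem_closedBall_zero_iff, pi_norm_le_iff_of_nonneg (le_max_right _ _)]
    intro F
    rw [Real.norm_of_nonneg (hc.1 F)]
    obtain ⟨v, hv⟩ := (K.isRelLowerSet_faces F.2).1
    have h2 := hR hcA
    rw [mem_closedBall_zero_iff] at h2
    calc c F ≤ fs K c v := le_fs hc.1 hv
      _ ≤ ‖fs K c v‖ := Real.le_norm_self _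
      _ ≤ ‖fs K c‖ := norm_le_pi_norm _ _
      _ ≤ R := h2
      _ ≤ _ := le_max_left _ _

end BTopA

open BTopA in
theorem cone_bary {V : Type} [Finite V] (K : PreAbstractSimplicialComplex V) :
    Nonempty (Cone (baryG K) ≃ₜ KCone K) := by
  classical
  haveI := Fintype.ofFinite V
  haveI : Fintype K.faces := Fintype.ofFinite _
  have h1 : Topology.IsClosedEmbedding (fm K) := by
    apply Topology.IsClosedEmbedding.of_continuous_injective_isClosedMap
    · exact fm_proper.continuous
    · intro c c' h
      exact Subtype.ext (fs_inj _ c.1 c'.1 c.2 c'.2 rfl h)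
    · exact fm_proper.isClosedMap
  have h2 : Set.range (fm K) = KCone K := by
    ext y
    constructor
    · rintro ⟨c, rfl⟩
      exact fs_mem c.2
    · intro hy
      obtain ⟨c, hc, hfc, _⟩ := fs_surj _ y hy rfl
      exact ⟨⟨c, hc⟩, hfc⟩
  exact ⟨h1.isEmbedding.toHomeomorph.trans (Homeomorph.setCongr h2)⟩

end SingerRA
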