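import Mathlib
import Pool.Agent.Lib_MP_394d50_bary.BDefs2

/-! Piece BINTER: the graphs `interG B U` (pyramid construction) are obtained from the suspension
of the order complex of `B` by edge subdivisions.

`px` is the pole `inl (inr false)`, `pb b` is `inl (inl b)`, the other pole is `inl (inr true)`.

* `interG_empty_iso`: `Sum.inl` (the type `↥∅` is empty).
* `interG_subdiv_iso`: `none ↦ inr ⟨b0, _⟩`, `some (inl z) ↦ inl z`, `some (inr c) ↦ inr ⟨c, _⟩`.
  Check of the adjacencies of the new vertex `b0⁺` in `interG B (insert b0 U)`: with `b`: `b ≤ b0`, i.e.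
  `b = b0` or `b < b0`; for `b < b0` one has `b ∉ U` (`hup`, `hb`) so that `b` is adjacent to `x` and `b0` in
  `interG B U`; for `b > b0` one has `b ∈ U`, so `b` is not adjacent to `x`. With `x`: yes. With `t`: no. With
  `c⁺`, `c ∈ U`: comparable to `b0` iff `b0 < c` (`hup`, `hb` exclude `c < b0`) iff `b0 ≤ c`. The edge
  `{x, b0}` is removed (`b0 ∈ insert b0 U`); the other adjacencies do not change. -/

namespace SingerRA

theorem interG_empty_iso (B : Type) [PartialOrder B] :
    Nonempty (suspG (compG B) ≃g interG B ∅) := by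
  refine ⟨⟨(Equiv.sumEmpty (B ⊕ Bool) (∅ : Set B)).symm, ?_⟩⟩
  intro x y
  rcases x with b | e <;> rcases y with c | f
  · exact Iff.rfl
  · exact ⟨fun _ => trivial, fun _ => Or.inr (fun h => h)⟩
  · exact ⟨fun _ => trivial, fun _ => Or.inr (fun h => h)⟩
  · exact Iff.rfl

theorem interG_adj (B : Type) [PartialOrder B] (U : Set B) (b0 : B) (hb : b0 ∉ U) :
    (interG B U).Adj px (pb b0) := Or.inr hb

namespace BInterAux

variable {B : Type} [PartialOrder B] {U : Set B} {b0 : B}

/-- The map of vertices. -/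
def toV (U : Set B) (b0 : B) : Option ((B ⊕ Bool) ⊕ U) → (B ⊕ Bool) ⊕ (insert b0 U : Set B)
  | none => .inr ⟨b0, Set.mem_insert _ _⟩
  | some (.inl z) => .inl z
  | some (.inr c) => .inr ⟨c.1, Set.mem_insert_of_mem _ c.2⟩

open scoped Classical in
/-- The inverse map of vertices. -/
noncomputable def invV (U : Set B) (b0 : B) :
    (B ⊕ Bool) ⊕ (insert b0 U : Set B) → Option ((B ⊕ Bool) ⊕ U)
  | .inl z => some (.inl z)
  | .inr c => if h : c.1 = b0 then none else
      some (.inr ⟨c.1, (Set.mem_insert_iff.mp c.2).resolve_left h⟩)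

/-- The bijection. -/
noncomputable def eqV (hb : b0 ∉ U) :
    Option ((B ⊕ Bool) ⊕ U) ≃ (B ⊕ Bool) ⊕ (insert b0 U : Set B) where
  toFun := toV U b0
  invFun := invV U b0
  left_inv := by
    rintro (_ | (z | c))
    · have h1 : invV U b0 (.inr ⟨b0, Set.mem_insert _ _⟩) = none := dif_pos rfl
      exact h1
    · rfl
    · have h : c.1 ≠ b0 := fun h => hb (h ▸ c.2)
      have h1 : invV U b0 (.inr ⟨c.1, Set.mem_insert_of_mem _ c.2⟩) = some (.inr c) := dif_neg h
      exact h1
  right_inv := by
    rintro (z | c)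
    · rfl
    · by_cases h : c.1 = b0
      · have h1 : invV U b0 (.inr c) = none := dif_pos h
        rw [h1]
        show (Sum.inr ⟨b0, _⟩ : (B ⊕ Bool) ⊕ (insert b0 U : Set B)) = Sum.inr c
        congr 1
        exact Subtype.ext h.symm
      · have h1 : invV U b0 (.inr c) =
            some (.inr ⟨c.1, (Set.mem_insert_iff.mp c.2).resolve_left h⟩) := dif_neg h
        rw [h1]
        rfl

theorem adj_none_b (hb : b0 ∉ U) (hU : ∀ c, b0 < c → c ∈ U) (hup : ∀ b ∈ U, ∀ c, b ≤ c → c ∈ U)
    (b : B) : (subdivG (interG B U) px (pb b0)).Adj (some (.inl (.inl b))) none ↔ b ≤ b0 := by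
  constructor
  · rintro (h | h | ⟨h1, h2⟩)
    · exact absurd (Sum.inl.inj h) (by simp)
    · have h3 : b = b0 := Sum.inl.inj (Sum.inl.inj h)
      exact h3.le
    · have h3 : b ∉ U := h1.resolve_left (by simp)
      rcases h2 with h2 | h2
      · exact absurd (hU b h2) h3
      · exact h2.le
  · intro h
    rcases h.eq_or_lt with h1 | h1
    · right; left
      rw [h1]
    · right; right
      exact ⟨Or.inr (fun h2 => hb (hup b h2 b0 h)), Or.inr h1⟩

theorem adj_none_e (e : Bool) :
    (subdivG (interG B U) px (pb b0)).Adj (some (.inl (.inr e))) none ↔ e = false := by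
  constructor
  · rintro (h | h | ⟨h1, h2⟩)
    · exact Sum.inr.inj (Sum.inl.inj h)
    · exact absurd (Sum.inl.inj h) (by simp)
    · exact h1.elim
  · intro h
    left
    rw [h]

theorem adj_none_c (hb : b0 ∉ U) (hup : ∀ b ∈ U, ∀ c, b ≤ c → c ∈ U) (c : U) :
    (subdivG (interG B U) px (pb b0)).Adj (some (.inr c)) none ↔ (c.1 < b0 ∨ b0 < c.1) := by
  constructor
  · rintro (h | h | ⟨h1, h2⟩)
    · exact absurd h (by simp)
    · exact absurd h (by simp)
    · have h3 : b0 ≤ c.1 := h2
      right
      exact lt_of_le_of_ne h3 (fun h => hb (h ▸ c.2))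
  · rintro (h | h)
    · exact absurd (hup c.1 c.2 b0 h.le) hb
    · right; right
      exact ⟨rfl, h.le⟩

theorem adj_be (b : B) (e : Bool) :
    (subdivG (interG B U) px (pb b0)).Adj (some (.inl (.inl b))) (some (.inl (.inr e))) ↔
      (e = true ∨ b ∉ insert b0 U) := by
  constructor
  · rintro ⟨h1, h2, h3⟩
    rcases h1 with h1 | h1
    · exact Or.inl h1
    · by_cases he : e = true
      · exact Or.inl he
      · right
        intro h4
        rcases Set.mem_insert_iff.mp h4 with h5 | h5
        · apply h3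
          rw [h5, Bool.not_eq_true] at *
          exact ⟨rfl, by rw [he]⟩
        · exact h1 h5
  · intro h
    refine ⟨?_, ?_, ?_⟩
    · rcases h with h | h
      · exact Or.inl h
      · exact Or.inr (fun h1 => h (Set.mem_insert_of_mem _ h1))
    · rintro ⟨h1, _⟩
      exact absurd (Sum.inl.inj h1) (by simp)
    · rintro ⟨h1, h2⟩
      have h3 : b = b0 := Sum.inl.inj (Sum.inl.inj h1)
      have h4 : e = false := Sum.inr.inj (Sum.inl.inj h2)
      rcases h with h | h
      · rw [h4] at h
        exact absurd h (by simp)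
      · exact h (by rw [h3]; exact Set.mem_insert _ _)

end BInterAux

open BInterAux

theorem interG_subdiv_iso (B : Type) [PartialOrder B] (U : Set B) (b0 : B) (hb : b0 ∉ U)
    (hU : ∀ c, b0 < c → c ∈ U) (hup : ∀ b ∈ U, ∀ c, b ≤ c → c ∈ U) :
    Nonempty (subdivG (interG B U) px (pb b0) ≃g interG B (insert b0 U)) := by
  refine ⟨⟨eqV hb, ?_⟩⟩
  -- the cases without a symmetric partner, then the others by symmetry
  have hsome : ∀ (u v : (B ⊕ Bool) ⊕ U), (¬ (u = px ∧ v = pb b0)) → (¬ (u = pb b0 ∧ v = px)) →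
      ((subdivG (interG B U) px (pb b0)).Adj (some u) (some v) ↔ (interG B U).Adj u v) :=
    fun u v h1 h2 => ⟨fun h => h.1, fun h => ⟨h, h1, h2⟩⟩
  intro x y
  show (interG B (insert b0 U)).Adj (toV U b0 x) (toV U b0 y) ↔
    (subdivG (interG B U) px (pb b0)).Adj x y
  rcases x with _ | ((b | e) | c) <;> rcases y with _ | ((b' | e') | c')
  · exact ⟨fun h => (h.elim (lt_irrefl _) (lt_irrefl _)).elim, fun h => h.elim⟩
  · rw [SimpleGraph.adj_comm (subdivG (interG B U) px (pb b0)), adj_none_b hb hU hup]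
    exact Iff.rfl
  · rw [SimpleGraph.adj_comm (subdivG (interG B U) px (pb b0)), adj_none_e]
    exact Iff.rfl
  · rw [SimpleGraph.adj_comm (subdivG (interG B U) px (pb b0)), adj_none_c hb hup]
    exact Or.comm
  · rw [adj_none_b hb hU hup]
    exact Iff.rfl
  · rw [hsome _ _ (fun h => absurd (Sum.inl.inj h.1) (by simp))
      (fun h => absurd (Sum.inl.inj h.2) (by simp))]
    exact Iff.rfl
  · rw [adj_be]
    exact Iff.rfl
  · rw [hsome _ _ (fun h => absurd h.2 (by simp)) (fun h => absurd h.2 (by simp))]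
    exact Iff.rfl
  · rw [adj_none_e]
    exact Iff.rfl
  · rw [SimpleGraph.adj_comm (subdivG (interG B U) px (pb b0)), adj_be]
    exact Iff.rfl
  · rw [hsome _ _ (fun h => absurd (Sum.inl.inj h.2) (by simp))
      (fun h => absurd (Sum.inl.inj h.1) (by simp))]
    exact Iff.rfl
  · rw [hsome _ _ (fun h => absurd h.2 (by simp)) (fun h => absurd h.2 (by simp))]
    exact Iff.rfl
  · rw [adj_none_c hb hup]
    exact Iff.rfl
  · rw [hsome _ _ (fun h => absurd h.1 (by simp)) (fun h => absurd h.1 (by simp))]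
    exact Iff.rfl
  · rw [hsome _ _ (fun h => absurd h.1 (by simp)) (fun h => absurd h.1 (by simp))]
    exact Iff.rfl
  · rw [hsome _ _ (fun h => absurd h.1 (by simp)) (fun h => absurd h.1 (by simp))]
    exact Iff.rfl

end SingerRA
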