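import Mathlib
import Pool.Agent.Lib_MP_394d50_bary.BDefs2

/-! Piece BPYR: the order complex of the proper faces of a simplex is the pyramid construction
over that of a facet.

`PF S` = proper nonempty subsets of `S`, ordered by inclusion.
`perm_pyr_iso` (`x ∉ S ≠ ∅`): `inl (inl T) ↦ T`, `inl (inr true) ↦ S`, `inl (inr false) ↦ {x}`,
`inr T ↦ insert x T`. Inverse: for `R ∈ PF (insert x S)`: if `x ∉ R` then `R = S` or `R ∈ PF S`; if `x ∈ R` then
`R.erase x = ∅`, or `R.erase x ∈ PF S` (it is not `S` because `R ≠ insert x S`). (An alternative to the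
explicit inverse: `Equiv.ofBijective`.) -/

namespace SingerRA

namespace BPyr

variable {α : Type} [DecidableEq α]

/-- The subset attached to a vertex of the pyramid construction. -/
def vl (S : Finset α) (x : α) : (PF S ⊕ Bool) ⊕ (Set.univ : Set (PF S)) → Finset α
  | .inl (.inl T) => T.1
  | .inl (.inr true) => S
  | .inl (.inr false) => {x}
  | .inr T => insert x T.1.1

theorem not_mem {S : Finset α} {x : α} (hx : x ∉ S) (T : PF S) : x ∉ T.1 :=
  fun h => hx (T.2.2.1 h)

theorem vl_mem {S : Finset α} {x : α} (hx : x ∉ S) (hS : S.Nonempty)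
    (v : (PF S ⊕ Bool) ⊕ (Set.univ : Set (PF S))) :
    (vl S x v).Nonempty ∧ vl S x v ⊂ insert x S := by
  rcases v with (T | e) | T
  · exact ⟨T.2.1, T.2.2.trans_subset (Finset.subset_insert _ _)⟩
  · cases e
    · obtain ⟨s, hs⟩ := hS
      refine ⟨Finset.singleton_nonempty x, ?_⟩
      change ({x} : Finset α) ⊂ insert x S
      rw [Finset.ssubset_iff_of_subset (Finset.singleton_subset_iff.2 (Finset.mem_insert_self _ _))]
      refine ⟨s, Finset.mem_insert_of_mem hs, ?_⟩
      intro h
      have h' : s ∈ ({x} : Finset α) := h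
      rw [Finset.mem_singleton] at h'
      exact hx (h' ▸ hs)
    · exact ⟨hS, Finset.ssubset_insert hx⟩
  · refine ⟨Finset.insert_nonempty _ _, ?_⟩
    obtain ⟨s, hs, hs'⟩ := Finset.exists_of_ssubset T.1.2.2
    change insert x T.1.1 ⊂ insert x S
    rw [Finset.ssubset_iff_of_subset (Finset.insert_subset_insert _ T.1.2.2.1)]
    refine ⟨s, Finset.mem_insert_of_mem hs, ?_⟩
    rw [Finset.mem_insert, not_or]
    exact ⟨fun h => hx (h ▸ hs), hs'⟩

/-- The isomorphism as a function. -/
def fn {S : Finset α} {x : α} (hx : x ∉ S) (hS : S.Nonempty)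
    (v : (PF S ⊕ Bool) ⊕ (Set.univ : Set (PF S))) : PF (insert x S) :=
  ⟨vl S x v, vl_mem hx hS v⟩

/-- The adjacency in terms of the subsets. -/
theorem adj_iff {S : Finset α} {x : α} (hx : x ∉ S) (hS : S.Nonempty)
    (u v : (PF S ⊕ Bool) ⊕ (Set.univ : Set (PF S))) :
    (vl S x u ⊂ vl S x v ∨ vl S x v ⊂ vl S x u) ↔ (interG (PF S) Set.univ).Adj u v := by
  have hsx : ∀ T : PF S, ¬ T.1 ⊂ {x} := by
    intro T h
    rw [Finset.ssubset_singleton_iff] at h
    exact T.2.1.ne_empty h
  have hxs : ∀ T : PF S, ¬ ({x} : Finset α) ⊂ T.1 := fun T h =>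
    not_mem hx T (h.1 (Finset.mem_singleton_self x))
  have hSx : ¬ S ⊂ {x} := by
    intro h
    rw [Finset.ssubset_singleton_iff] at h
    exact hS.ne_empty h
  have hxS : ¬ ({x} : Finset α) ⊂ S := fun h => hx (h.1 (Finset.mem_singleton_self x))
  have hiT : ∀ b c : PF S, (b.1 ⊂ insert x c.1 ∨ insert x c.1 ⊂ b.1) ↔ b ≤ c := by
    intro b c
    constructor
    · rintro (h | h)
      · have h1 := (Finset.subset_insert_iff_of_notMem (not_mem hx b)).1 h.1
        exact h1
      · exact absurd (h.1 (Finset.mem_insert_self _ _)) (not_mem hx b)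
    · intro h
      left
      exact Finset.ssubset_of_subset_of_ssubset h (Finset.ssubset_insert (not_mem hx c))
  have hiS : ∀ c : PF S, ¬ (S ⊂ insert x c.1 ∨ insert x c.1 ⊂ S) := by
    rintro c (h | h)
    · have h1 := (Finset.subset_insert_iff_of_notMem hx).1 h.1
      exact c.2.2.2 h1
    · exact hx (h.1 (Finset.mem_insert_self _ _))
  have hix : ∀ c : PF S, ({x} : Finset α) ⊂ insert x c.1 := by
    intro c
    obtain ⟨s, hs⟩ := c.2.1
    rw [Finset.ssubset_iff_of_subset (Finset.singleton_subset_iff.2 (Finset.mem_insert_self _ _))]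
    refine ⟨s, Finset.mem_insert_of_mem hs, ?_⟩
    rw [Finset.mem_singleton]
    rintro rfl
    exact not_mem hx c hs
  have hii : ∀ b c : PF S, insert x b.1 ⊂ insert x c.1 ↔ b.1 ⊂ c.1 := by
    intro b c
    rw [Finset.ssubset_iff_subset_ne, Finset.ssubset_iff_subset_ne,
      Finset.insert_subset_insert_iff (not_mem hx b)]
    constructor
    · rintro ⟨h1, h2⟩
      exact ⟨h1, fun h => h2 (by rw [h])⟩
    · rintro ⟨h1, h2⟩
      refine ⟨h1, fun h => h2 ?_⟩
      have h3 := congrArg (fun R => R.erase x) h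
      simpa [Finset.erase_insert (not_mem hx b), Finset.erase_insert (not_mem hx c)] using h3
  rcases u with (b | e) | b <;> rcases v with (c | f) | c
  · exact Iff.rfl
  · cases f
    · change (b.1 ⊂ {x} ∨ {x} ⊂ b.1) ↔ (false = true ∨ b ∉ Set.univ)
      constructor
      · rintro (h | h)
        · exact absurd h (hsx b)
        · exact absurd h (hxs b)
      · rintro (h | h)
        · cases h
        · exact absurd (Set.mem_univ b) h
    · change (b.1 ⊂ S ∨ S ⊂ b.1) ↔ (true = true ∨ b ∉ Set.univ)
      exact ⟨fun _ => Or.inl rfl, fun _ => Or.inl b.2.2⟩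
  · exact hiT b c.1
  · cases e
    · change ({x} ⊂ c.1 ∨ c.1 ⊂ {x}) ↔ (false = true ∨ c ∉ Set.univ)
      constructor
      · rintro (h | h)
        · exact absurd h (hxs c)
        · exact absurd h (hsx c)
      · rintro (h | h)
        · cases h
        · exact absurd (Set.mem_univ c) h
    · change (S ⊂ c.1 ∨ c.1 ⊂ S) ↔ (true = true ∨ c ∉ Set.univ)
      exact ⟨fun _ => Or.inl rfl, fun _ => Or.inr c.2.2⟩
  · change _ ↔ False
    rw [iff_false]
    cases e <;> cases f
    · rintro (h | h)
      · exact h.2 subset_rfl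
      · exact h.2 subset_rfl
    · rintro (h | h)
      · exact hxS h
      · exact hSx h
    · rintro (h | h)
      · exact hSx h
      · exact hxS h
    · rintro (h | h)
      · exact h.2 subset_rfl
      · exact h.2 subset_rfl
  · cases e
    · change ({x} ⊂ insert x c.1.1 ∨ insert x c.1.1 ⊂ {x}) ↔ false = false
      exact ⟨fun _ => rfl, fun _ => Or.inl (hix c.1)⟩
    · change (S ⊂ insert x c.1.1 ∨ insert x c.1.1 ⊂ S) ↔ true = false
      constructor
      · intro h
        exact absurd h (hiS c.1)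
      · intro h
        cases h
  · change (insert x b.1.1 ⊂ c.1 ∨ c.1 ⊂ insert x b.1.1) ↔ c ≤ b.1
    rw [← hiT c b.1]
    exact or_comm
  · cases f
    · change (insert x b.1.1 ⊂ {x} ∨ {x} ⊂ insert x b.1.1) ↔ false = false
      exact ⟨fun _ => rfl, fun _ => Or.inr (hix b.1)⟩
    · change (insert x b.1.1 ⊂ S ∨ S ⊂ insert x b.1.1) ↔ true = false
      constructor
      · intro h
        exact absurd h.symm (hiS b.1)
      · intro h
        cases h
  · change (insert x b.1.1 ⊂ insert x c.1.1 ∨ insert x c.1.1 ⊂ insert x b.1.1) ↔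
      (b.1.1 ⊂ c.1.1 ∨ c.1.1 ⊂ b.1.1)
    rw [hii, hii]

theorem vl_injective {S : Finset α} {x : α} (hx : x ∉ S) (hS : S.Nonempty) :
    Function.Injective (vl S x) := by
  have h0 : ∀ T : PF S, T.1 ≠ {x} := fun T h =>
    not_mem hx T (by rw [h]; exact Finset.mem_singleton_self x)
  have h1 : S ≠ {x} := fun h => hx (by rw [h]; exact Finset.mem_singleton_self x)
  have h2 : ∀ T : PF S, T.1 ≠ S := fun T h => T.2.2.ne h
  have h3 : ∀ T T' : PF S, T.1 ≠ insert x T'.1 := fun T T' h =>
    not_mem hx T (by rw [h]; exact Finset.mem_insert_self _ _)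
  have h4 : ∀ T : PF S, S ≠ insert x T.1 := fun T h =>
    hx (by rw [h]; exact Finset.mem_insert_self _ _)
  have h5 : ∀ T : PF S, {x} ≠ insert x T.1 := by
    intro T h
    obtain ⟨s, hs⟩ := T.2.1
    have h6 : s ∈ ({x} : Finset α) := by
      rw [h]
      exact Finset.mem_insert_of_mem hs
    rw [Finset.mem_singleton] at h6
    exact not_mem hx T (h6 ▸ hs)
  intro u v h
  rcases u with (b | e) | b <;> rcases v with (c | f) | c
  · have h' : b.1 = c.1 := h
    rw [Subtype.ext h']
  · cases f
    · exact absurd h (h0 b)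
    · exact absurd h (h2 b)
  · exact absurd h (h3 b c.1)
  · cases e
    · exact absurd h.symm (h0 c)
    · exact absurd h.symm (h2 c)
  · cases e <;> cases f
    · rfl
    · exact absurd h.symm h1
    · exact absurd h h1
    · rfl
  · cases e
    · exact absurd h (h5 c.1)
    · exact absurd h (h4 c.1)
  · exact absurd h.symm (h3 c b.1)
  · cases f
    · exact absurd h.symm (h5 b.1)
    · exact absurd h.symm (h4 b.1)
  · have h' : insert x b.1.1 = insert x c.1.1 := h
    have h6 := congrArg (fun R => R.erase x) h'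
    simp only [Finset.erase_insert (not_mem hx b.1), Finset.erase_insert (not_mem hx c.1)] at h6
    have h7 : b = c := Subtype.ext (Subtype.ext h6)
    rw [h7]

theorem fn_surjective {S : Finset α} {x : α} (hx : x ∉ S) (hS : S.Nonempty) :
    Function.Surjective (fn hx hS) := by
  intro R
  by_cases hxR : x ∈ R.1
  · by_cases he : R.1.erase x = ∅
    · refine ⟨.inl (.inr false), Subtype.ext ?_⟩
      change {x} = R.1
      rw [← Finset.insert_erase hxR, he]
      rfl
    · have h1 : R.1.erase x ⊂ S := by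
        rw [Finset.ssubset_iff_subset_ne]
        constructor
        · exact Finset.subset_insert_iff.1 R.2.2.1
        · intro h
          apply R.2.2.ne
          exact (Finset.insert_erase hxR).symm.trans (congrArg (insert x) h)
      refine ⟨.inr ⟨⟨R.1.erase x, Finset.nonempty_iff_ne_empty.2 he, h1⟩, Set.mem_univ _⟩,
        Subtype.ext ?_⟩
      exact Finset.insert_erase hxR
  · have h1 : R.1 ⊆ S := (Finset.subset_insert_iff_of_notMem hxR).1 R.2.2.1
    by_cases he : R.1 = S
    · refine ⟨.inl (.inr true), Subtype.ext he.symm⟩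
    · exact ⟨.inl (.inl ⟨R.1, R.2.1, Finset.ssubset_iff_subset_ne.2 ⟨h1, he⟩⟩), rfl⟩

end BPyr

open BPyr in
theorem perm_pyr_iso {α : Type} [DecidableEq α] (S : Finset α) (x : α) (hx : x ∉ S)
    (hS : S.Nonempty) :
    Nonempty (interG (PF S) Set.univ ≃g compG (PF (insert x S))) := by
  have hb : Function.Bijective (fn hx hS) := by
    refine ⟨fun u v h => vl_injective hx hS (congrArg Subtype.val h), fn_surjective hx hS⟩
  refine ⟨{ toEquiv := Equiv.ofBijective _ hb, map_rel_iff' := ?_ }⟩
  intro u v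
  exact adj_iff hx hS u v

end SingerRA
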