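import Mathlib
import Pool.Agent.Lib_MP_394d50_gt.AGood
import Pool.Agent.Lib_MP_394d50_gt.DLink
import Pool.Agent.Lib_MP_394d50_bary.BInter
import Pool.Agent.Lib_MP_394d50_bary.BPyr

/-! Piece BPERM: the barycentric subdivision of the boundary of a simplex is in `CrossSub`.

* `crossSub_inter`: prove `∀ N, ∀ U : Set B, U.ncard = N → (U up-closed) → CrossSub (n + 1) (interG B U)` by
  induction on `N`. `N = 0`: `U = ∅`, `CrossSub.susp h` and `interG_empty_iso`. `N + 1`: let `b0` be a minimal
  element of `U` (finite, nonempty), `U' = U \ {b0}`: up-closed, `b0 ∉ U'`, every `c > b0` is in `U'`,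
  `insert b0 U' = U`; `CrossSub.subdiv` applied to `interG B U'` with `interG_adj`, then `CrossSub.iso` with
  `interG_subdiv_iso`.
* `crossSub_perm`: induction (`Finset.Nonempty.cons_induction` or `Finset.induction_on`): for `S = {x}`:
  `PF S` is empty (a proper subset of a singleton is empty): `CrossSub.empty`. `S = insert x S'`, `S'`
  nonempty: `perm_pyr_iso`, `crossSub_inter`, `S.card - 1 = (S'.card - 1) + 1`. -/

namespace SingerRA

private lemma crossSub_inter_aux {B : Type} [PartialOrder B] [Finite B] (n : ℕ)
    (h : CrossSub n (compG B)) : ∀ N : ℕ, ∀ U : Set B, U.ncard = N →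
      (∀ b ∈ U, ∀ c, b ≤ c → c ∈ U) → CrossSub (n + 1) (interG B U) := by
  intro N
  induction N with
  | zero =>
    intro U hU _
    have hU0 : U = ∅ := (Set.ncard_eq_zero (Set.toFinite U)).mp hU
    subst hU0
    obtain ⟨e⟩ := interG_empty_iso B
    exact (CrossSub.susp h).iso e
  | succ N ih =>
    intro U hU hup
    have hne : U.Nonempty := by
      rw [← Set.ncard_pos (Set.toFinite U)]
      omega
    obtain ⟨b0, hb0⟩ := (Set.toFinite U).exists_minimal hne
    have hb0U : b0 ∈ U := hb0.prop
    set U' : Set B := U \ {b0} with hU'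
    have hnot : b0 ∉ U' := fun hh => hh.2 rfl
    have hins : insert b0 U' = U := by
      rw [hU', Set.insert_sdiff_singleton, Set.insert_eq_of_mem hb0U]
    have hab : ∀ c, b0 < c → c ∈ U' := fun c hc => ⟨hup b0 hb0U c hc.le, fun hh => hc.ne' hh⟩
    have hup' : ∀ b ∈ U', ∀ c, b ≤ c → c ∈ U' := by
      intro b hb c hbc
      refine ⟨hup b hb.1 c hbc, ?_⟩
      intro hh
      have hh' : c = b0 := hh
      subst hh'
      exact hb.2 (le_antisymm hbc (hb0.le_of_le hb.1 hbc))
    have hcard : U'.ncard = N := by
      rw [hU', Set.ncard_sdiff_singleton_of_mem hb0U, hU]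
      rfl
    have h1 := CrossSub.subdiv (ih U' hcard hup') (interG_adj B U' b0 hnot)
    obtain ⟨e⟩ := interG_subdiv_iso B U' b0 hnot hab hup'
    have h2 := h1.iso e
    rw [hins] at h2
    exact h2

theorem crossSub_inter {B : Type} [PartialOrder B] [Finite B] (n : ℕ)
    (h : CrossSub n (compG B)) : CrossSub (n + 1) (interG B Set.univ) :=
  crossSub_inter_aux n h _ Set.univ rfl fun _ _ _ _ => Set.mem_univ _

private lemma finite_PF {α : Type} (S : Finset α) : Finite (PF S) := by
  apply Set.Finite.subset (S.powerset.finite_toSet)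
  intro T hT
  rw [Finset.mem_coe, Finset.mem_powerset]
  exact hT.2.subset

theorem crossSub_perm {α : Type} (S : Finset α) (hS : S.Nonempty) :
    CrossSub (S.card - 1) (compG (PF S)) := by
  classical
  induction hS using Finset.Nonempty.cons_induction with
  | singleton a =>
    refine CrossSub.empty ⟨?_⟩ _
    rintro ⟨T, hT1, hT2⟩
    rw [Finset.ssubset_singleton_iff] at hT2
    rw [hT2] at hT1
    exact Finset.not_nonempty_empty hT1
  | cons x S' hx hS' ih =>
    have := finite_PF S'
    have h1 := crossSub_inter (S'.card - 1) ih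
    obtain ⟨e⟩ := perm_pyr_iso S' x hx hS'
    have h2 := h1.iso e
    have hc : (insert x S').card - 1 = S'.card - 1 + 1 := by
      rw [Finset.card_insert_of_notMem hx]
      have := hS'.card_pos
      omega
    rw [Finset.cons_eq_insert, hc]
    exact h2

theorem good_perm {α : Type} (S : Finset α) (hS : S.Nonempty) :
    Good (S.card - 1) (compG (PF S)) := (crossSub_perm S hS).good

end SingerRA
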