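import Mathlib
import Pool.Agent.Lib_MP_394d50_gt.AGood
import Pool.Agent.Lib_MP_394d50_gt.EAdd
import Pool.Agent.Lib_MP_394d50_bary.BDefs2

/-! Piece BUPPER: small gradients above the middle dimension for the order complexes of posets
with good lower intervals.

Induction on `Nat.card P` (all `P`, all orders, all `r`). `P` empty: `SmallGrad.of_isEmpty`. Otherwise let
`p` be a maximal element; `SmallGrad.add (compG P) p (q + 1)` with
* `delG (compG P) p = compG {u // u ≠ p}` (`SimpleGraph.ext`/`rfl`: the order of the subtype); the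
  induction hypothesis applies to `{u // u ≠ p}` with `r` restricted: for `u < p'`, `u ≠ p` because `p` is
  maximal, so `compG (Set.Iio p')` in the subtype is isomorphic to `compG (Set.Iio p'.1)`.
* `nbrG (compG P) p`: its vertices are the `u` with `p < u ∨ u < p`, that is `u < p`; it is isomorphic to
  `compG (Set.Iio p)`, which is `Good (r p)`; `small_of_good` (from `AGood`) gives `SmallGrad q` because
  `2 q ≥ n > r p`; transport by `SmallGrad.iso`. -/

namespace SingerRA

namespace BUpper

/-- The lower intervals do not change when a maximal element is removed. -/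
def isoDel {P : Type} [PartialOrder P] (p : P) (hp : ∀ u, ¬ p < u) (u : {u : P // u ≠ p}) :
    compG (Set.Iio u.1) ≃g compG (Set.Iio u) where
  toFun w := ⟨⟨w.1, fun h => hp u.1 (lt_of_eq_of_lt h.symm (show w.1 < u.1 from w.2))⟩, w.2⟩
  invFun w := ⟨w.1.1, w.2⟩
  left_inv _ := rfl
  right_inv _ := rfl
  map_rel_iff' := Iff.rfl

/-- The link of a maximal element. -/
def isoNbr {P : Type} [PartialOrder P] (p : P) (hp : ∀ u, ¬ p < u) :
    compG (Set.Iio p) ≃g nbrG (compG P) p where
  toFun w := ⟨w.1, Or.inr w.2⟩
  invFun w := ⟨w.1, w.2.resolve_left (hp w.1)⟩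
  left_inv _ := rfl
  right_inv _ := rfl
  map_rel_iff' := Iff.rfl

theorem aux (n q : ℕ) (hq : n ≤ 2 * q) : ∀ (N : ℕ) (P : Type) [Finite P] [PartialOrder P]
    (r : P → ℕ), (∀ p, r p < n) → (∀ p, Good (r p) (compG (Set.Iio p))) → Nat.card P = N →
    SmallGrad (q + 1) (compG P) := by
  intro N
  induction N using Nat.strong_induction_on with
  | _ N ih =>
    intro P _ _ r hr hG hN
    rcases isEmpty_or_nonempty P with he | hne
    · exact SmallGrad.of_isEmpty _ _ (Nat.succ_pos q)
    · obtain ⟨p, hp⟩ := (Set.finite_univ (α := P)).exists_maximal Set.univ_nonempty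
      have hp' : ∀ u, ¬ p < u := fun u hu => (hu.trans_le (hp.2 (Set.mem_univ u) hu.le)).false
      apply SmallGrad.add (compG P) p (q + 1)
      · have e : delG (compG P) p = compG {u // u ≠ p} := by
          ext u v
          rfl
        rw [e]
        refine ih (Nat.card {u : P // u ≠ p}) ?_ {u : P // u ≠ p} (fun u => r u.1)
          (fun u => hr u.1) (fun u => (hG u.1).iso (isoDel p hp' u)) rfl
        rw [← hN]
        exact Finite.card_subtype_lt (x := p) (fun h => h rfl)
      · intro j hj
        obtain rfl : j = q := by omega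
        have h1 := small_of_good (hG p) j (by have := hr p; omega)
        exact SmallGrad.iso (isoNbr p hp') j h1

end BUpper

theorem upper_poset {P : Type} [Finite P] [PartialOrder P] (r : P → ℕ) (n : ℕ)
    (hr : ∀ p, r p < n) (hG : ∀ p, Good (r p) (compG (Set.Iio p))) (q : ℕ) (hq : n ≤ 2 * q) :
    SmallGrad (q + 1) (compG P) :=
  BUpper.aux n q hq _ P r hr hG rfl

end SingerRA
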