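import Mathlib
import Pool.Agent.Lib_MP_394d50_bary.BUpper
import Pool.Agent.Lib_MP_394d50_bary.BPerm

/-! Piece BUPPERK.

* `face_Iio_iso`: the faces strictly contained in the face `F` are the nonempty proper subsets of `F`
  (`K.down_closed`, `K.empty_notMem`).
* `upper_bary`: `upper_poset` with `P = K.faces`, `r F = F.card - 1 < n`.
* `exists_chain_face`: a face `F` with `k` elements contains a chain of `k` faces (choose an enumeration of
  `F`, or induction on the number of elements: remove one element). -/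

namespace SingerRA

theorem face_Iio_iso {V : Type} (K : PreAbstractSimplicialComplex V) (F : K.faces) :
    Nonempty (compG (PF F.1) ≃g compG (Set.Iio F)) := by
  have hF : ∀ T : PF F.1, T.1 ∈ K.faces := fun T =>
    (K.isRelLowerSet_faces F.2).2 T.2.2.1 T.2.1
  refine ⟨⟨⟨fun T => ⟨⟨T.1, hF T⟩, T.2.2⟩,
    fun T => ⟨T.1.1, (K.isRelLowerSet_faces T.1.2).1, T.2⟩, fun T => rfl, fun T => rfl⟩, ?_⟩⟩
  intro a b
  exact Iff.rfl

theorem upper_bary {V : Type} [Finite V] (K : PreAbstractSimplicialComplex V) (n : ℕ)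
    (hn : ∀ F ∈ K.faces, F.card ≤ n) (q : ℕ) (hq : n ≤ 2 * q) : SmallGrad (q + 1) (baryG K) := by
  rw [baryG_eq]
  refine upper_poset (fun F : K.faces => F.1.card - 1) n ?_ ?_ q hq
  · intro F
    have h1 := hn F.1 F.2
    have h2 : 0 < F.1.card := Finset.card_pos.mpr (K.isRelLowerSet_faces F.2).1
    show F.1.card - 1 < n
    omega
  · intro F
    obtain ⟨e⟩ := face_Iio_iso K F
    exact (good_perm F.1 (K.isRelLowerSet_faces F.2).1).iso e

theorem exists_chain_face {V : Type} (K : PreAbstractSimplicialComplex V) (F : Finset V)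
    (hF : F ∈ K.faces) :
    ∃ σ : Finset K.faces, (baryG K).IsClique (σ : Set K.faces) ∧ σ.card = F.card := by
  classical
  suffices H : ∀ F : Finset V, (F = ∅ ∨ F ∈ K.faces) →
      ∃ σ : Finset K.faces, (baryG K).IsClique (σ : Set K.faces) ∧ σ.card = F.card ∧
        ∀ T ∈ σ, T.1 ⊆ F by
    obtain ⟨σ, h1, h2, _⟩ := H F (Or.inr hF)
    exact ⟨σ, h1, h2⟩
  intro F
  induction F using Finset.induction_on with
  | empty =>
    intro _
    exact ⟨∅, by simp, by simp, by simp⟩
  | insert a F ha ih =>
    intro h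
    have hK : insert a F ∈ K.faces := h.resolve_left (Finset.insert_ne_empty a F)
    have h' : F = ∅ ∨ F ∈ K.faces := by
      rcases F.eq_empty_or_nonempty with h1 | h1
      · exact Or.inl h1
      · exact Or.inr ((K.isRelLowerSet_faces hK).2 (Finset.subset_insert a F) h1)
    obtain ⟨σ, h1, h2, h3⟩ := ih h'
    have hnot : (⟨insert a F, hK⟩ : K.faces) ∉ σ := fun hm =>
      ha (h3 _ hm (Finset.mem_insert_self a F))
    have hlt : ∀ T ∈ σ, T.1 ⊂ insert a F := fun T hT =>
      lt_of_le_of_lt (h3 T hT) (Finset.ssubset_insert ha)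
    refine ⟨insert ⟨insert a F, hK⟩ σ, ?_, ?_, ?_⟩
    · rw [Finset.coe_insert, SimpleGraph.isClique_insert]
      refine ⟨h1, ?_⟩
      intro T hT _
      exact Or.inr (hlt T hT)
    · rw [Finset.card_insert_of_notMem hnot, Finset.card_insert_of_notMem ha, h2]
    · intro T hT
      rcases Finset.mem_insert.mp hT with rfl | hT
      · exact Finset.Subset.refl _
      · exact (hlt T hT).1

end SingerRA
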