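import Mathlib
import Pool.Agent.Lib_MP_394d50_gt.Main
import Pool.Agent.Lib_MP_394d50_gt.EMain
import Pool.Agent.Lib_MP_394d50_bary.BUpperK
import Pool.Agent.Lib_MP_394d50_bary.BSphere
import Pool.Agent.Lib_MP_394d50_bary.BTopA
import Pool.Agent.Lib_MP_394d50_bary.BTopB

/-! Assembly (helper99). -/

namespace SingerRA

theorem small_bary {V : Type} [Finite V] (K : PreAbstractSimplicialComplex V)
    [Fintype K.faces] (n : ℕ) (hS : F2Sphere n (baryG K)) (k : ℕ)
    (hk : n + 2 ≤ 2 * k ∨ 2 * k + 2 ≤ n) : SmallGrad k (baryG K) := by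
  classical
  have hH : HomSphere n (baryG K) := homSphere_of_f2 n (baryG K) hS
  have hn : ∀ F ∈ K.faces, F.card ≤ n := by
    intro F hF
    obtain ⟨σ, h1, h2⟩ := exists_chain_face K F hF
    rw [← h2]
    exact hH.dim σ h1
  have up : ∀ p, n + 2 ≤ 2 * p → SmallGrad p (baryG K) := by
    intro p hp
    obtain ⟨q, rfl⟩ : ∃ q, p = q + 1 := ⟨p - 1, by omega⟩
    exact upper_bary K n hn q (by omega)
  rcases hk with h | h
  · exact up k h
  · exact SmallGrad.dual hH k (by omega) (up (n - k) (by omega))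

theorem cone_sphere {V : Type} [Fintype V] (K : PreAbstractSimplicialComplex V) (n : ℕ)
    (h : Nonempty (realiz K ≃ₜ Metric.sphere (0 : EuclideanSpace ℝ (Fin n)) 1)) :
    Nonempty (Cone (baryG K) ≃ₜ (Fin n → ℝ)) := by
  obtain ⟨e⟩ := h
  obtain ⟨f⟩ := cone_bary K
  obtain ⟨g⟩ := kcone_sphere K n e
  exact ⟨f.trans g⟩

end SingerRA
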